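import Mathlib
import Pool.Agent.Helper9.NS
import Pool.Agent.Helper83.VF.Defs

/-!
# Cyclic covers of products of projective lines branched along fibres

Let `k` be algebraically closed of characteristic zero and let `F_s`, `s < r`, be binary forms of
degree `m a_s`. The cyclic cover `w ^ m = ∏ F_s (x_s)` of `(P^1)^r` has as points with coordinates
in a field `K` containing `k` the vectors `(x_0, …, x_(r-1), w)`, where all `x_s` are nonzero
vectors in `K^2`, modulo the action of `(K^*)^r` with `c (x, w) = ((c_s x_s)_s, ∏ c_s ^ a_s w)`.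
A morphism to this variety from the smooth projective curve with function field `K` is the same as
a point with coordinates in `K`; its value at a place `v` of `K` is obtained by scaling the
coordinates so that they are regular at `v` and, for all `s`, not both coordinates of `x_s` vanish
at `v`, and evaluating them at `v`.
-/

set_option linter.unusedSectionVars false

namespace CY

open VC VP VF Function

universe u

/-- Homogeneous coordinates `(x, w)` of a point of `w ^ m = ∏ F_s (x_s)`. -/
structure Rep (k K : Type u) [Field k] [Field K] [Algebra k K] (m : ℕ) {r : ℕ}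
    (F : Fin r → MvPolynomial (Fin 2) k) where
  /-- the homogeneous coordinates of the points on the projective lines -/
  x : Fin r → Fin 2 → K
  /-- the last coordinate -/
  w : K
  ne : ∀ s, x s ≠ 0
  eqn : w ^ m = ∏ s, MvPolynomial.aeval (x s) (F s)

/-- Two vectors of homogeneous coordinates define the same point. -/
def Rep.Eqv {k K : Type u} [Field k] [Field K] [Algebra k K] {m : ℕ} {r : ℕ}
    {F : Fin r → MvPolynomial (Fin 2) k} (a : Fin r → ℕ) (R S : Rep k K m F) : Prop :=
  ∃ c : Fin r → K, (∀ s, c s ≠ 0) ∧ (∀ s i, S.x s i = c s * R.x s i) ∧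
    S.w = (∏ s, c s ^ a s) * R.w

lemma Rep.eqv_equivalence {k K : Type u} [Field k] [Field K] [Algebra k K] {m : ℕ} {r : ℕ}
    {F : Fin r → MvPolynomial (Fin 2) k} (a : Fin r → ℕ) :
    Equivalence (Rep.Eqv (k := k) (K := K) (m := m) (F := F) a) where
  refl R := ⟨fun _ => 1, fun _ => one_ne_zero, fun s i => (one_mul _).symm, by simp⟩
  symm := by
    rintro R S ⟨c, hc, h1, h2⟩
    refine ⟨fun s => (c s)⁻¹, fun s => inv_ne_zero (hc s), fun s i => ?_, ?_⟩
    · rw [h1, inv_mul_cancel_left₀ (hc s)]
    · rw [h2, ← mul_assoc, ← Finset.prod_mul_distrib]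
      have : ∀ s, (c s)⁻¹ ^ a s * c s ^ a s = 1 := fun s => by
        rw [← mul_pow, inv_mul_cancel₀ (hc s), one_pow]
      rw [Finset.prod_congr rfl (fun s _ => this s), Finset.prod_const_one, one_mul]
  trans := by
    rintro R S T ⟨c, hc, h1, h2⟩ ⟨d, hd, h3, h4⟩
    refine ⟨fun s => d s * c s, fun s => mul_ne_zero (hd s) (hc s), fun s i => ?_, ?_⟩
    · rw [h3, h1]; ring
    · rw [h4, h2, ← mul_assoc, ← Finset.prod_mul_distrib]
      simp only [mul_pow]

/-- The relation of defining the same point. -/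
def rel (k K : Type u) [Field k] [Field K] [Algebra k K] (m : ℕ) {r : ℕ} (a : Fin r → ℕ)
    (F : Fin r → MvPolynomial (Fin 2) k) : Setoid (Rep k K m F) :=
  ⟨Rep.Eqv a, Rep.eqv_equivalence a⟩

/-- The points of `w ^ m = ∏ F_s (x_s)` with coordinates in `K`. -/
def CycPt (k K : Type u) [Field k] [Field K] [Algebra k K] (m : ℕ) {r : ℕ} (a : Fin r → ℕ)
    (F : Fin r → MvPolynomial (Fin 2) k) : Type u := Quotient (rel k K m a F)

section pts

variable {k K : Type u} [Field k] [Field K] [Algebra k K] {m : ℕ} {r : ℕ} {a : Fin r → ℕ}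
  {F : Fin r → MvPolynomial (Fin 2) k}

/-- The point with given homogeneous coordinates. -/
def mk (a : Fin r → ℕ) (R : Rep k K m F) : CycPt k K m a F := Quotient.mk (rel k K m a F) R

lemma exists_rep (P : CycPt k K m a F) : ∃ R, P = mk a R := by
  induction P using Quotient.inductionOn with
  | h R => exact ⟨R, rfl⟩

lemma mk_eq_iff {R S : Rep k K m F} : mk a R = mk a S ↔ R.Eqv a S :=
  ⟨fun h => Quotient.exact h, fun h => Quotient.sound h⟩

/-- Homogeneous polynomials at multiples of vectors. -/
lemma aeval_smul_of_hom {f : MvPolynomial (Fin 2) k} {n : ℕ} (hf : f.IsHomogeneous n) (c : K)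
    (x : Fin 2 → K) : MvPolynomial.aeval (fun i => c * x i) f =
      c ^ n * MvPolynomial.aeval x f := by
  rw [MvPolynomial.aeval_eq_eval₂Hom, MvPolynomial.aeval_eq_eval₂Hom, MvPolynomial.coe_eval₂Hom,
    MvPolynomial.coe_eval₂Hom, MvPolynomial.eval₂_eq', MvPolynomial.eval₂_eq', Finset.mul_sum]
  apply Finset.sum_congr rfl
  intro d hd
  have h1 : ∑ i, d i = n := by
    have := hf (MvPolynomial.mem_support_iff.mp hd)
    rw [← this, Finsupp.weight_apply, Finsupp.sum_fintype _ _ (by simp)]
    simp
  simp only [mul_pow, Finset.prod_mul_distrib, Finset.prod_pow_eq_pow_sum]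
  rw [h1]
  ring

/-- Multiplication of the homogeneous coordinates with `c`. -/
def Rep.scale (hF : ∀ s, (F s).IsHomogeneous (m * a s)) (R : Rep k K m F) (c : Fin r → K)
    (hc : ∀ s, c s ≠ 0) : Rep k K m F where
  x := fun s i => c s * R.x s i
  w := (∏ s, c s ^ a s) * R.w
  ne := fun s h => R.ne s (funext fun i => by
    have := congrFun h i
    exact (mul_eq_zero.mp this).resolve_left (hc s))
  eqn := by
    rw [mul_pow, R.eqn, ← Finset.prod_pow, ← Finset.prod_mul_distrib]
    apply Finset.prod_congr rfl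
    intro s _
    rw [aeval_smul_of_hom (hF s), ← pow_mul, mul_comm (a s) m]

lemma mk_scale (hF : ∀ s, (F s).IsHomogeneous (m * a s)) (R : Rep k K m F) (c : Fin r → K)
    (hc : ∀ s, c s ≠ 0) : mk a (R.scale hF c hc) = mk a R :=
  mk_eq_iff.mpr ((Rep.eqv_equivalence a).symm ⟨c, hc, fun _ _ => rfl, rfl⟩)

/-- The point `p` with coordinates in `k` is the value of the point `P` with coordinates in `K` at
the place `v` of `K`: there are homogeneous coordinates `R` of `P` and `S` of `p` such that each
coordinate in `R` has at `v` the value given by the corresponding coordinate in `S`. -/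
def IsValue (v : Place k K) (P : CycPt k K m a F) (p : CycPt k k m a F) : Prop :=
  ∃ (R : Rep k K m F) (S : Rep k k m F), P = mk a R ∧ p = mk a S ∧
    (∀ s i, R.x s i - algebraMap k K (S.x s i) ∈ v.ring.nonunits) ∧
    R.w - algebraMap k K S.w ∈ v.ring.nonunits

lemma _root_.VF.IsRes.prod {v : Place k K} {ι : Type*} (s : Finset ι) {f : ι → K} {g : ι → k}
    (h : ∀ i ∈ s, IsRes v (f i) (g i)) : IsRes v (∏ i ∈ s, f i) (∏ i ∈ s, g i) := by
  classical
  induction s using Finset.induction_on with
  | empty => simpa using isRes_one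
  | insert a s ha ih =>
    rw [Finset.prod_insert ha, Finset.prod_insert ha]
    exact (h a (Finset.mem_insert_self _ _)).mul
      (ih (fun i hi => h i (Finset.mem_insert_of_mem hi)))

lemma _root_.VF.IsRes.mvpoly {v : Place k K} {ι : Type*} {x : ι → K} {y : ι → k}
    (h : ∀ i, IsRes v (x i) (y i)) (f : MvPolynomial ι k) :
    IsRes v (MvPolynomial.aeval x f) (MvPolynomial.aeval y f) := by
  induction f using MvPolynomial.induction_on with
  | C a =>
    rw [MvPolynomial.aeval_C, MvPolynomial.aeval_C]
    exact isRes_const a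
  | add p q hp hq => rw [map_add, map_add]; exact hp.add hq
  | mul_X p i hp =>
    rw [map_mul, map_mul, MvPolynomial.aeval_X, MvPolynomial.aeval_X]
    exact hp.mul (h i)

/-- The value of the right hand side of the equation. -/
lemma res_form {v : Place k K} {x : Fin r → Fin 2 → K} {y : Fin r → Fin 2 → k}
    (h : ∀ s i, IsRes v (x s i) (y s i)) :
    IsRes v (∏ s, MvPolynomial.aeval (x s) (F s)) (∏ s, MvPolynomial.aeval (y s) (F s)) :=
  IsRes.prod _ fun s _ => IsRes.mvpoly (h s) (F s)

lemma value_unique {v : Place k K} {P : CycPt k K m a F} {p q : CycPt k k m a F}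
    (h : IsValue v P p) (h' : IsValue v P q) : p = q := by
  obtain ⟨R, S, rfl, rfl, h1, h2⟩ := h
  obtain ⟨R', S', e, rfl, h1', h2'⟩ := h'
  obtain ⟨c, hc, e1, e2⟩ := mk_eq_iff.mp e
  rw [mk_eq_iff]
  -- the scaling factors are units
  have key : ∀ s, ∃ d : k, d ≠ 0 ∧ IsRes v (c s) d := by
    intro s
    obtain ⟨j, hj⟩ := Function.ne_iff.mp (S.ne s)
    obtain ⟨l, hl⟩ := Function.ne_iff.mp (S'.ne s)
    have r1 : IsRes v (R.x s j) (S.x s j) := h1 s j
    have r2 : IsRes v (R.x s l) (S.x s l) := h1 s l
    have r1' : IsRes v (R'.x s j) (S'.x s j) := h1' s j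
    have r2' : IsRes v (R'.x s l) (S'.x s l) := h1' s l
    obtain ⟨n1, m1⟩ := r1.inv_mem hj
    have hcm : c s ∈ v.ring := by
      have : c s = R'.x s j * (R.x s j)⁻¹ := by
        rw [e1, mul_assoc, mul_inv_cancel₀ n1, mul_one]
      rw [this]
      exact v.ring.mul_mem _ _ r1'.mem m1
    have hcn : c s ∉ v.ring.nonunits := by
      intro hn
      have h3 := nonunits_mul r2.mem hn
      rw [mul_comm, ← e1] at h3
      exact hl (r2'.unique (isRes_zero_iff.mpr h3))
    have hinv : (c s)⁻¹ ∈ v.ring := by
      rw [ValuationSubring.mem_nonunits_iff_or] at hcn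
      push Not at hcn
      exact hcn.2
    -- `c s` is a quotient
    refine ⟨S'.x s j * (S.x s j)⁻¹, ?_, ?_⟩
    · apply mul_ne_zero _ (inv_ne_zero hj)
      intro h0
      apply hcn
      have h3 : R'.x s j ∈ v.ring.nonunits := by rw [h0] at r1'; exact isRes_zero_iff.mp r1'
      have h4 := nonunits_mul m1 h3
      rwa [e1, mul_comm (c s), ← mul_assoc, inv_mul_cancel₀ n1, one_mul] at h4
    · -- value of `c s`
      unfold IsRes
      have h5 : R.x s j * c s - R.x s j * algebraMap k K (S'.x s j * (S.x s j)⁻¹) ∈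
          v.ring.nonunits := by
        have h6 : IsRes v (R.x s j * algebraMap k K (S'.x s j * (S.x s j)⁻¹))
            (S.x s j * (S'.x s j * (S.x s j)⁻¹)) := r1.mul (isRes_const _)
        have h7 : S.x s j * (S'.x s j * (S.x s j)⁻¹) = S'.x s j := by
          have : S.x s j ≠ 0 := hj
          field_simp
        rw [h7] at h6
        have h8 := (r1'.sub h6)
        rw [sub_self, isRes_zero_iff, e1] at h8
        rwa [mul_comm (R.x s j) (c s)]
      have h9 := nonunits_mul m1 h5
      rwa [mul_sub, ← mul_assoc, ← mul_assoc, inv_mul_cancel₀ n1, one_mul, one_mul] at h9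
  choose d hd hd' using key
  refine ⟨d, hd, fun s i => ?_, ?_⟩
  · have r1 : IsRes v (R.x s i) (S.x s i) := h1 s i
    have r1' : IsRes v (R'.x s i) (S'.x s i) := h1' s i
    rw [e1] at r1'
    exact r1'.unique ((hd' s).mul r1)
  · have r1 : IsRes v R.w S.w := h2
    have r1' : IsRes v R'.w S'.w := h2'
    rw [e2] at r1'
    exact r1'.unique ((IsRes.prod _ (fun s _ => (hd' s).pow _)).mul r1)

variable [IsAlgClosed k] [CharZero k]

lemma exists_value (hm : m ≠ 0) (hF : ∀ s, (F s).IsHomogeneous (m * a s))
    (hK : IsFunctionField k K) (P : CycPt k K m a F) (v : Place k K) :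
    ∃ p : CycPt k k m a F, IsValue v P p := by
  obtain ⟨R, rfl⟩ := exists_rep P
  choose j hj hj' using fun s => exists_max v.ring (R.x s) (R.ne s)
  set c : Fin r → K := fun s => (R.x s (j s))⁻¹ with hcd
  have hc : ∀ s, c s ≠ 0 := fun s => inv_ne_zero (hj s)
  set T := R.scale hF c hc with hT
  have hTx : ∀ s i, T.x s i ∈ v.ring := by
    intro s i
    have := hj' s i
    rwa [mul_comm] at this
  choose b hb using fun s i => exists_res hK (hTx s i)
  have hbj : ∀ s, b s (j s) = 1 := by
    intro s
    have h1 := hb s (j s)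
    have h2 : T.x s (j s) = 1 := inv_mul_cancel₀ (hj s)
    rw [h2] at h1
    exact h1.unique isRes_one
  have h3 := res_form (F := F) hb
  rw [← T.eqn] at h3
  obtain ⟨e, he, he'⟩ := exists_res_of_pow hK hm h3
  have hb0 : ∀ s, b s ≠ 0 := by
    intro s h0
    have := hbj s
    rw [h0] at this
    exact zero_ne_one this
  exact ⟨mk a ⟨b, e, hb0, he'⟩, T, ⟨b, e, hb0, he'⟩, (mk_scale hF R c hc).symm, rfl,
    fun s i => hb s i, he⟩

end pts

/-- The cyclic cover `w ^ m = ∏ F_s (x_s)` of `(P^1)^r` over the algebraically closed field `k`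
of characteristic zero; the `F_s` are binary forms of degree `m a_s`. -/
noncomputable abbrev cyc (k : Type u) [Field k] [IsAlgClosed k] [CharZero k] (m : ℕ) [NeZero m]
    {r : ℕ} (a : Fin r → ℕ) (F : Fin r → MvPolynomial (Fin 2) k)
    (hF : ∀ s, (F s).IsHomogeneous (m * a s)) : Variety k where
  Pt := CycPt k k m a F
  Mor K _ _ := CycPt k K m a F
  eval hK P v := (exists_value (NeZero.ne m) hF hK P v).choose

section eval

variable {k K : Type u} [Field k] [IsAlgClosed k] [CharZero k] [Field K] [Algebra k K] {m : ℕ}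
  [NeZero m] {r : ℕ} {a : Fin r → ℕ} {F : Fin r → MvPolynomial (Fin 2) k}
  {hF : ∀ s, (F s).IsHomogeneous (m * a s)}

lemma eval_eq (hK : IsFunctionField k K) (v : Place k K) {R : Rep k K m F}
    {S : Rep k k m F} (h : ∀ s i, IsRes v (R.x s i) (S.x s i)) (hw : IsRes v R.w S.w) :
    (cyc k m a F hF).eval hK (mk a R) v = mk a S :=
  value_unique (exists_value (NeZero.ne m) hF hK (mk a R) v).choose_spec ⟨R, S, rfl, rfl, h, hw⟩

/-- Coordinates adapted to a place. -/
lemma exists_coord (hK : IsFunctionField k K) (v : Place k K) (P : CycPt k K m a F) :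
    ∃ (R : Rep k K m F) (S : Rep k k m F), P = mk a R ∧
      (cyc k m a F hF).eval hK P v = mk a S ∧
      (∀ s i, IsRes v (R.x s i) (S.x s i)) ∧ IsRes v R.w S.w := by
  obtain ⟨p, hp⟩ := exists_value (NeZero.ne m) hF hK P v
  obtain ⟨R, S, rfl, rfl, h1, h2⟩ := hp
  exact ⟨R, S, rfl, eval_eq hK v h1 h2, h1, h2⟩

omit [IsAlgClosed k] [CharZero k] in
lemma aeval_algebraMap_form (f : MvPolynomial (Fin 2) k) (y : Fin 2 → k) :
    MvPolynomial.aeval (fun i => algebraMap k K (y i)) f =
      algebraMap k K (MvPolynomial.aeval y f) := by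
  rw [← MvPolynomial.aeval_algebraMap_apply]
  rfl

/-- The constant maps. -/
lemma cyc_const (K : Type u) [Field K] [Algebra k K] (hK : IsFunctionField k K)
    (p : (cyc k m a F hF).Pt) :
    ∃ c : (cyc k m a F hF).Mor K, ∀ v, (cyc k m a F hF).eval hK c v = p := by
  obtain ⟨S, rfl⟩ := exists_rep p
  refine ⟨mk a ⟨fun s i => algebraMap k K (S.x s i), algebraMap k K S.w, ?_, ?_⟩, fun v => ?_⟩
  · intro s h0
    apply S.ne s
    funext i
    exact (_root_.map_eq_zero _).mp (congrFun h0 i)
  · rw [← map_pow, S.eqn, map_prod]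
    exact Finset.prod_congr rfl fun s _ => (aeval_algebraMap_form _ _).symm
  · exact eval_eq hK v (fun s i => isRes_const _) (isRes_const _)

end eval

end CY
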