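import Mathlib
import Pool.Agent.Helper9.NS
import Pool.Agent.Helper83.VF.Curve
import Pool.Agent.Helper9.CY.Defs

/-!
# The action of the roots of unity, and curves
-/

set_option linter.unusedSectionVars false

namespace CY

open VC VP VF Function

universe u

section twist

variable {k K : Type u} [Field k] [Field K] [Algebra k K] {m : ℕ} [NeZero m] {r : ℕ}
  {a : Fin r → ℕ} {F : Fin r → MvPolynomial (Fin 2) k} {E : AddChar (ZMod m) k}

/-- Multiplication of the last coordinate with a root of unity. -/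
def Rep.tw (E : AddChar (ZMod m) k) (c : ZMod m) (R : Rep k K m F) : Rep k K m F where
  x := R.x
  w := algebraMap k K (E c) * R.w
  ne := R.ne
  eqn := by rw [mul_pow, ← map_pow, char_pow, map_one, one_mul, R.eqn]

/-- The action of the roots of unity on the last coordinate. -/
def tw (E : AddChar (ZMod m) k) (c : ZMod m) : CycPt k K m a F → CycPt k K m a F :=
  Quotient.map (Rep.tw E c) (by
    rintro R S ⟨d, hd, h1, h2⟩
    refine ⟨d, hd, h1, ?_⟩
    change algebraMap k K (E c) * S.w = _ * (algebraMap k K (E c) * R.w)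
    rw [h2]; ring)

lemma tw_mk (c : ZMod m) (R : Rep k K m F) : tw E c (mk a R) = mk a (R.tw E c) := rfl

lemma Rep.ext' {R S : Rep k K m F} (h : ∀ s i, R.x s i = S.x s i) (hw : R.w = S.w) : R = S := by
  cases R; cases S
  congr
  exact funext fun s => funext fun i => h s i

lemma tw_tw (c d : ZMod m) (P : CycPt k K m a F) : tw E c (tw E d P) = tw E (c + d) P := by
  obtain ⟨R, rfl⟩ := exists_rep P
  rw [tw_mk, tw_mk, tw_mk]
  congr 1
  refine Rep.ext' (fun _ _ => rfl) ?_
  change algebraMap k K (E c) * (algebraMap k K (E d) * R.w) = algebraMap k K (E (c + d)) * R.w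
  rw [AddChar.map_add_eq_mul, map_mul, mul_assoc]

lemma tw_zero (P : CycPt k K m a F) : tw E 0 P = P := by
  obtain ⟨R, rfl⟩ := exists_rep P
  rw [tw_mk]
  congr 1
  refine Rep.ext' (fun _ _ => rfl) ?_
  change algebraMap k K (E 0) * R.w = R.w
  rw [AddChar.map_zero_eq_one, map_one, one_mul]

variable [IsAlgClosed k] [CharZero k] {hF : ∀ s, (F s).IsHomogeneous (m * a s)}

lemma induced_tw (E : AddChar (ZMod m) k) (c : ZMod m) :
    Induced (cyc k m a F hF) (cyc k m a F hF) (tw E c) := by
  intro K _ _ hK P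
  refine ⟨tw E c P, fun v => ?_⟩
  obtain ⟨R, S, rfl, h, h1, h2⟩ := exists_coord (hF := hF) hK v P
  rw [h, tw_mk, tw_mk]
  refine eval_eq hK v h1 ?_
  change IsRes v (algebraMap k K (E c) * R.w) (algebraMap k k (E c) * S.w)
  exact (isRes_const _).mul h2

/-- An eigenfunction vanishes at the points with last coordinate zero. -/
lemma ram_zero (hE : IsFull E) {φ : CycPt k k m a F → k} {j : ZMod m} (hj : j ≠ 0)
    (he : ∀ c P, φ (tw E c P) = E (j * c) * φ P) {R : Rep k k m F} (hw : R.w = 0) :
    φ (mk a R) = 0 := by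
  have h1 : tw E 1 (mk a R) = mk a R := by
    rw [tw_mk]
    congr 1
    refine Rep.ext' (fun _ _ => rfl) ?_
    change algebraMap k k (E 1) * R.w = R.w
    rw [hw, mul_zero]
  have h2 := he 1 (mk a R)
  rw [h1, mul_one] at h2
  by_contra h3
  apply hj
  apply hE.1
  have h6 : (E j - 1) * φ (mk a R) = 0 := by rw [sub_mul, one_mul, ← h2, sub_self]
  rcases mul_eq_zero.mp h6 with h6 | h6
  · exact sub_eq_zero.mp h6
  · exact absurd h6 h3

end twist

section curves

open MvPolynomial (X C)

variable {k : Type u} [Field k] {m a : ℕ} {β : Type} [Fintype β]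

/-- The binary form with zeros `c_b` of multiplicities `n_b`. -/
noncomputable def aform (c : β → k) (n : β → ℕ) : MvPolynomial (Fin 2) k :=
  ∏ b, (X 0 - C (c b) * X 1) ^ n b

lemma aform_hom (c : β → k) (n : β → ℕ) : (aform c n).IsHomogeneous (∑ b, n b) := by
  unfold aform
  apply MvPolynomial.IsHomogeneous.prod
  intro b _
  have h1 : (X 0 - C (c b) * X 1 : MvPolynomial (Fin 2) k).IsHomogeneous 1 := by
    apply MvPolynomial.IsHomogeneous.sub
    · exact MvPolynomial.isHomogeneous_X k 0
    · have := (MvPolynomial.isHomogeneous_C (Fin 2) (c b)).mul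
        (MvPolynomial.isHomogeneous_X k (1 : Fin 2))
      rwa [zero_add] at this
  have := h1.pow (n b)
  rwa [one_mul] at this

lemma aeval_aform {K : Type u} [Field K] [Algebra k K] (c : β → k) (n : β → ℕ) (x : Fin 2 → K) :
    MvPolynomial.aeval x (aform c n) = ∏ b, (x 0 - algebraMap k K (c b) * x 1) ^ n b := by
  unfold aform
  simp [map_prod]

variable [IsAlgClosed k] [CharZero k] [NeZero m]

/-- The curve `z ^ m = F (x)`, `F` a binary form of degree `m a`. -/
noncomputable abbrev crv (m : ℕ) [NeZero m] (a : ℕ) (F : MvPolynomial (Fin 2) k)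
    (hF : F.IsHomogeneous (m * a)) : Variety k :=
  cyc k m (fun _ : Fin 1 => a) (fun _ => F) (fun _ => hF)

/-- The points of `z ^ m = F (x)`. -/
abbrev CrvPt (k K : Type u) [Field k] [Field K] [Algebra k K] (m : ℕ) (a : ℕ)
    (F : MvPolynomial (Fin 2) k) : Type u :=
  CycPt k K m (fun _ : Fin 1 => a) (fun _ => F)

/-- The point `(x, z)` of the curve `z ^ m = F (x)`. -/
def cpt {K : Type u} [Field K] [Algebra k K] (a : ℕ) {F : MvPolynomial (Fin 2) k}
    (x : Fin 2 → K) (z : K) (hx : x ≠ 0) (h : z ^ m = MvPolynomial.aeval x F) :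
    CrvPt k K m a F :=
  mk _ ⟨fun _ => x, z, fun _ => hx, by simpa using h⟩

lemma exists_cpt {K : Type u} [Field K] [Algebra k K] {F : MvPolynomial (Fin 2) k}
    (P : CrvPt k K m a F) : ∃ x z hx h, P = cpt a x z hx h := by
  obtain ⟨R, rfl⟩ := exists_rep P
  refine ⟨R.x 0, R.w, R.ne 0, by simpa using R.eqn, ?_⟩
  unfold cpt
  congr 1
  refine Rep.ext' (fun s i => ?_) rfl
  rw [Subsingleton.elim s 0]

/-- The point with affine coordinates `t`, `z` of the curve `z ^ m = ∏ (t - c_b) ^ n_b`. -/
noncomputable def apt {K : Type u} [Field K] [Algebra k K] (a : ℕ) (c : β → k) (n : β → ℕ) (t z : K)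
    (h : z ^ m = ∏ b, (t - algebraMap k K (c b)) ^ n b) : CrvPt k K m a (aform c n) :=
  cpt a ![t, 1] z (fun h0 => one_ne_zero (congrFun h0 1)) (by
    rw [aeval_aform, h]
    simp)

lemma apt_congr {K : Type u} [Field K] [Algebra k K] {c : β → k} {n : β → ℕ} {t z t' z' : K}
    {h : z ^ m = ∏ b, (t - algebraMap k K (c b)) ^ n b}
    {h' : z' ^ m = ∏ b, (t' - algebraMap k K (c b)) ^ n b} (ht : t = t') (hz : z = z') :
    apt a c n t z h = apt a c n t' z' h' := by
  subst ht; subst hz; rfl

lemma eval_apt {K : Type u} [Field K] [Algebra k K] {c : β → k} {n : β → ℕ}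
    (hn : (aform c n).IsHomogeneous (m * a)) (hK : IsFunctionField k K) (v : Place k K) {t z : K}
    {h : z ^ m = ∏ b, (t - algebraMap k K (c b)) ^ n b} {t' z' : k}
    (ht : IsRes v t t') (hz : IsRes v z z')
    (h' : z' ^ m = ∏ b, (t' - algebraMap k k (c b)) ^ n b) :
    (crv m a (aform c n) hn).eval hK (apt a c n t z h) v = apt a c n t' z' h' := by
  apply eval_eq (hF := fun _ => hn) hK v
  · intro s i
    fin_cases i
    · exact ht
    · exact isRes_one
  · exact hz

/-- The value of a point whose first affine coordinate runs into a branch point. -/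
lemma eval_apt_branch {K : Type u} [Field K] [Algebra k K] {c : β → k} {n : β → ℕ}
    (hn : (aform c n).IsHomogeneous (m * a)) (hK : IsFunctionField k K) (v : Place k K) {t z : K}
    {h : z ^ m = ∏ b, (t - algebraMap k K (c b)) ^ n b} {b : β} (hb : n b ≠ 0)
    (ht : IsRes v t (c b)) :
    ∃ h', (crv m a (aform c n) hn).eval hK (apt a c n t z h) v = apt a c n (c b) 0 h' := by
  have h1 : IsRes v (z ^ m) (∏ b', (c b - algebraMap k k (c b')) ^ n b') := by
    rw [h]
    exact IsRes.prod _ fun b' _ => (ht.sub (isRes_const _)).pow _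
  have h2 : ∏ b', (c b - algebraMap k k (c b')) ^ n b' = 0 := by
    apply Finset.prod_eq_zero (Finset.mem_univ b)
    rw [Algebra.algebraMap_self, RingHom.id_apply, sub_self, zero_pow hb]
  have h3 : (0 : k) ^ m = ∏ b', (c b - algebraMap k k (c b')) ^ n b' := by
    rw [h2, zero_pow (NeZero.ne m)]
  rw [h2] at h1
  obtain ⟨e, he, he'⟩ := exists_res_of_pow hK (NeZero.ne m) h1
  have he0 : e = 0 := (pow_eq_zero_iff (NeZero.ne m)).mp he'
  subst he0
  exact ⟨h3, eval_apt hn hK v ht he h3⟩

end curves

/-- Permutations preserving the fibres of `χ` in `B` are generated by transpositions. -/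
lemma perm_induct {ι J : Type*} [DecidableEq ι] [Fintype ι] (χ : ι → J) (B : Finset ι)
    (Q : Equiv.Perm ι → Prop) (h1 : Q 1)
    (hmul : ∀ σ i j, i ∈ B → j ∈ B → χ i = χ j → i ≠ j → Q σ → Q (Equiv.swap i j * σ)) :
    ∀ π : Equiv.Perm ι, (∀ i, i ∉ B → π i = i) → (∀ i, χ (π i) = χ i) → Q π := by
  intro π
  induction hs : π.support.card using Nat.strong_induction_on generalizing π with
  | _ N ih =>
    intro hB hχ
    by_cases hπ : π = 1
    · rw [hπ]; exact h1
    obtain ⟨i, hi⟩ : ∃ i, π i ≠ i := by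
      by_contra hcon
      push Not at hcon
      exact hπ (Equiv.ext hcon)
    have hiB : i ∈ B := by
      by_contra h
      exact hi (hB i h)
    have hπiB : π i ∈ B := by
      by_contra h
      exact hi (π.injective (hB _ h))
    set τ := Equiv.swap (π i) i * π with hτ
    have e : π = Equiv.swap (π i) i * τ := by
      rw [hτ, ← mul_assoc, Equiv.swap_mul_self, one_mul]
    have hτi : τ i = i := by rw [hτ, Equiv.Perm.mul_apply, Equiv.swap_apply_left]
    have hτχ : ∀ l, χ (τ l) = χ l := by
      intro l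
      rw [hτ, Equiv.Perm.mul_apply, ← hχ l]
      by_cases h1 : π l = π i
      · rw [h1, Equiv.swap_apply_left, hχ]
      · by_cases h2 : π l = i
        · rw [h2, Equiv.swap_apply_right, hχ]
        · rw [Equiv.swap_apply_of_ne_of_ne h1 h2]
    have hτB : ∀ l, l ∉ B → τ l = l := by
      intro l hl
      rw [hτ, Equiv.Perm.mul_apply, hB l hl, Equiv.swap_apply_of_ne_of_ne]
      · rintro rfl; exact hl hπiB
      · rintro rfl; exact hl hiB
    have hlt : τ.support.card < N := by
      rw [← hs]
      apply Finset.card_lt_card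
      rw [Finset.ssubset_iff_of_subset]
      · exact ⟨i, Equiv.Perm.mem_support.mpr hi, by rw [Equiv.Perm.notMem_support]; exact hτi⟩
      · intro l hl
        rw [Equiv.Perm.mem_support] at hl ⊢
        intro h
        apply hl
        have hli : l ≠ i := by rintro rfl; exact hi h
        have hlπ : l ≠ π i := by
          rintro rfl
          exact hi (π.injective h)
        rw [hτ, Equiv.Perm.mul_apply, h, Equiv.swap_apply_of_ne_of_ne hlπ hli]
    rw [e]
    exact hmul τ (π i) i hπiB hiB (hχ i) hi (ih _ hlt τ rfl hτB hτχ)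

end CY
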