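import Mathlib
import Pool.Agent.Helper9.CY.Basic

/-!
# Types of binary forms, survivors
-/

set_option linter.unusedSectionVars false

namespace CY

open VC VP VF Function

universe u

/-- The indices of the branch points of type `(s, d)`: `s + d` simple zeros, `s` simple poles and,
if `m` does not divide `d`, the point at infinity. -/
abbrev Br (m s d : ℕ) : Type := (Fin (s + d) ⊕ Fin s) ⊕ Fin (if m ∣ d then 0 else 1)

/-- The exponent `⌈d / m⌉`. -/
def up (m d : ℕ) : ℕ := (d + m - 1) / m

/-- The multiplicities: `1` for the zeros, `m - 1` for the poles, `m ⌈d / m⌉ - d` for the point at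
infinity. -/
def mult (m s d : ℕ) : Br m s d → ℕ
  | Sum.inl (Sum.inl _) => 1
  | Sum.inl (Sum.inr _) => m - 1
  | Sum.inr _ => m * up m d - d

/-- The number of unpaired branch points. -/
def r0 (m d : ℕ) : ℕ := d + if m ∣ d then 0 else 1

/-- The conditions on the numbers `x j` of points with character `j` which are left over by the
vanishing theorem for curves of type `(s, d)`. -/
def Surv (m : ℕ) [NeZero m] (s d : ℕ) (x : ZMod m → ℕ) : Prop :=
  (d = 0 → ∀ j : ZMod m, j ≠ 0 → x j + 1 ≤ s) ∧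
  (d ≠ 0 → ∀ v : ZMod m → ℕ, v 0 = 0 → v ≠ 0 → ∑ j, (v j : ZMod m) * j = 0 →
    (r0 m d : ℤ) ≤ ∑ j, (v j : ℤ) * ((s : ℤ) + r0 m d - 1 - x j))

/-- The form with zeros `α_b` of multiplicities `n_b`. -/
noncomputable def gform {k : Type u} [Field k] {β : Type} [Fintype β] (α : β → Fin 2 → k)
    (n : β → ℕ) : MvPolynomial (Fin 2) k :=
  ∏ b, (MvPolynomial.X 0 * MvPolynomial.C (α b 1) - MvPolynomial.X 1 * MvPolynomial.C (α b 0)) ^ n b

/-- The binary form `F` of degree `m (s + ⌈d / m⌉)` is of type `(s, d)`: it is the form belonging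
to `f₁ f₂ ^ (m - 1)`, where `f₁`, `f₂` have simple zeros, `deg f₂ = s`, `deg f₁ = s + d`. -/
def IsType {k : Type u} [Field k] (m s d : ℕ) (F : MvPolynomial (Fin 2) k) : Prop :=
  ∃ (κ : k) (α : Br m s d → Fin 2 → k), κ ≠ 0 ∧ (∀ b, α b ≠ 0) ∧
    (∀ b b', b ≠ b' → α b 0 * α b' 1 - α b 1 * α b' 0 ≠ 0) ∧
    F = MvPolynomial.C κ * gform α (mult m s d)

/-- The hypotheses on functions on the power of a curve: it kills the cycles rationally equivalent
to zero, at the positions in `B` it is an eigenfunction with nonzero characters `χ i`, and it is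
symmetric under the transpositions of positions in `B` with equal characters. -/
structure Blk {k : Type u} [Field k] [IsAlgClosed k] [CharZero k] {m : ℕ} [NeZero m] {a : ℕ}
    {F : MvPolynomial (Fin 2) k} (hF : F.IsHomogeneous (m * a)) (E : AddChar (ZMod m) k) {N : ℕ}
    (B : Finset (Fin N)) (χ : Fin N → ZMod m) (ψ : (Fin N → CrvPt k k m a F) → k) : Prop where
  kills : Kills ((crv m a F hF).pow N) ψ
  ne : ∀ i ∈ B, χ i ≠ 0
  equi : ∀ i ∈ B, ∀ p c, ψ (update p i (tw E c (p i))) = E (χ i * c) * ψ p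
  symm : ∀ i ∈ B, ∀ j ∈ B, χ i = χ j → ∀ p, ψ (fun l => p (Equiv.swap i j l)) = ψ p

end CY
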