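import Mathlib
import Pool.Agent.Helper52.CY.Surv
import Pool.Agent.Helper57.CY.Rearr

/-!
# The bound for the sum over all characters
-/

set_option linter.unusedSectionVars false

namespace CY

variable {m : ℕ} [NeZero m]

lemma up_mono {a b : ℕ} (h : a ≤ b) : up m a ≤ up m b := by
  unfold up
  exact Nat.div_le_div_right (by omega)

lemma dims_anti (s d : ℕ) {i j : ℕ} (h : i ≤ j) :
    s + up m ((m - 1 - j) * d) - 1 ≤ s + up m ((m - 1 - i) * d) - 1 := by
  have := up_mono (m := m) (Nat.mul_le_mul_right d (show m - 1 - j ≤ m - 1 - i by omega))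
  omega

theorem comb (hm : 2 ≤ m) {s d s' d' : ℕ} (hsd : 0 < s + d) (hd : m ∣ d ∨ m.Coprime d)
    (hsd' : 0 < s' + d') (hd' : m ∣ d' ∨ m.Coprime d') {x y : ZMod m → ℕ} (hx : Surv m s d x)
    (hy : Surv m s' d' y) (hx0 : x 0 = 0) :
    ∑ j, x j * y j ≤
      ∑ j ∈ Finset.Ico 1 m, (s + up m (j * d) - 1) * (s' + up m (j * d') - 1) := by
  classical
  set J : Finset (ZMod m) := Finset.univ.erase 0 with hJ
  have hJc : J.card = m - 1 := by
    rw [hJ, Finset.card_erase_of_mem (Finset.mem_univ _), Finset.card_univ, ZMod.card]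
  have h1 : ∑ j, x j * y j = ∑ j ∈ J, x j * y j := by
    rw [hJ, ← Finset.add_sum_erase _ _ (Finset.mem_univ (0 : ZMod m)), hx0, zero_mul, zero_add]
  have h2 := rearr J x y (fun i => s + up m ((m - 1 - i) * d) - 1)
    (fun i => s' + up m ((m - 1 - i) * d') - 1)
    (fun i _ j _ h => dims_anti s d h) (fun i _ j _ h => dims_anti s' d' h)
    (fun S hS => surv_bound hm hsd hd hx S (fun h => by
      have := hS h
      simp [hJ] at this))
    (fun S hS => surv_bound hm hsd' hd' hy S (fun h => by
      have := hS h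
      simp [hJ] at this))
  rw [h1]
  refine h2.trans (le_of_eq ?_)
  rw [hJc]
  refine Finset.sum_bij (fun i _ => m - 1 - i) ?_ ?_ ?_ ?_
  · intro i hi
    rw [Finset.mem_range] at hi
    rw [Finset.mem_Ico]
    omega
  · intro i hi i' hi' h
    rw [Finset.mem_range] at hi hi'
    omega
  · intro j hj
    rw [Finset.mem_Ico] at hj
    exact ⟨m - 1 - j, by rw [Finset.mem_range]; omega, by omega⟩
  · intro i _
    rfl

end CY
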