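import Mathlib
import Pool.Agent.Helper9.NS
import Pool.Agent.Helper9.CY.Basic

/-!
# The surface as a quotient of a product of two curves
-/

set_option linter.unusedSectionVars false

namespace CY

open VC VP VF VH Function Polynomial

universe u

section

variable {k K : Type u} [Field k] [Field K] [Algebra k K] {m : ℕ} [NeZero m] {a : Fin 2 → ℕ}
  {F : Fin 2 → MvPolynomial (Fin 2) k}

/-- The product of two points, on homogeneous coordinates. -/
def Rep.mul (R : Rep k K m (fun _ : Fin 1 => F 0)) (S : Rep k K m (fun _ : Fin 1 => F 1)) :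
    Rep k K m F where
  x := ![R.x 0, S.x 0]
  w := R.w * S.w
  ne := by
    intro s
    fin_cases s
    · exact R.ne 0
    · exact S.ne 0
  eqn := by
    rw [mul_pow, R.eqn, S.eqn, Fin.prod_univ_two]
    simp

/-- The map `(x, z), (x', z') ↦ (x, x', z z')`. -/
def mul (a : Fin 2 → ℕ) : CrvPt k K m (a 0) (F 0) → CrvPt k K m (a 1) (F 1) → CycPt k K m a F :=
  Quotient.map₂ Rep.mul (by
    rintro R R' ⟨c, hc, h1, h2⟩ S S' ⟨d, hd, h3, h4⟩
    refine ⟨![c 0, d 0], ?_, ?_, ?_⟩
    · intro s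
      fin_cases s
      · exact hc 0
      · exact hd 0
    · intro s i
      fin_cases s
      · exact h1 0 i
      · exact h3 0 i
    · change R'.w * S'.w = _ * (R.w * S.w)
      rw [h2, h4, Fin.prod_univ_two]
      simp only [Finset.univ_unique, Finset.prod_singleton, Matrix.cons_val_zero,
        Matrix.cons_val_one]
      change c 0 ^ a 0 * R.w * (d 0 ^ a 1 * S.w) = _
      ring)

lemma mul_mk (R : Rep k K m (fun _ : Fin 1 => F 0)) (S : Rep k K m (fun _ : Fin 1 => F 1)) :
    mul a (mk _ R) (mk _ S) = mk a (R.mul S) := rfl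

lemma mul_tw_left {E : AddChar (ZMod m) k} (c : ZMod m) (P : CrvPt k K m (a 0) (F 0))
    (Q : CrvPt k K m (a 1) (F 1)) : mul a (tw E c P) Q = tw E c (mul a P Q) := by
  obtain ⟨R, rfl⟩ := exists_rep P
  obtain ⟨S, rfl⟩ := exists_rep Q
  rw [tw_mk, mul_mk, mul_mk, tw_mk]
  congr 1
  refine Rep.ext' (fun _ _ => rfl) ?_
  change algebraMap k K (E c) * R.w * S.w = algebraMap k K (E c) * (R.w * S.w)
  ring

lemma mul_tw_right {E : AddChar (ZMod m) k} (c : ZMod m) (P : CrvPt k K m (a 0) (F 0))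
    (Q : CrvPt k K m (a 1) (F 1)) : mul a P (tw E c Q) = tw E c (mul a P Q) := by
  obtain ⟨R, rfl⟩ := exists_rep P
  obtain ⟨S, rfl⟩ := exists_rep Q
  rw [tw_mk, mul_mk, mul_mk, tw_mk]
  congr 1
  refine Rep.ext' (fun _ _ => rfl) ?_
  change R.w * (algebraMap k K (E c) * S.w) = algebraMap k K (E c) * (R.w * S.w)
  ring

end

variable {k : Type u} [Field k] [IsAlgClosed k] [CharZero k] {m : ℕ} [NeZero m] {a : Fin 2 → ℕ}
  {F : Fin 2 → MvPolynomial (Fin 2) k}

omit [CharZero k] in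
/-- Every point is a product. -/
lemma mul_surj (P : CycPt k k m a F) :
    ∃ (Q : CrvPt k k m (a 0) (F 0)) (R : CrvPt k k m (a 1) (F 1)), P = mul a Q R := by
  obtain ⟨T, rfl⟩ := exists_rep P
  have hT := T.eqn
  rw [Fin.prod_univ_two] at hT
  obtain ⟨z, hz⟩ := IsAlgClosed.exists_pow_nat_eq (MvPolynomial.aeval (T.x 0) (F 0))
    (Nat.pos_of_ne_zero (NeZero.ne m))
  by_cases h0 : z = 0
  · obtain ⟨z', hz'⟩ := IsAlgClosed.exists_pow_nat_eq (MvPolynomial.aeval (T.x 1) (F 1))
      (Nat.pos_of_ne_zero (NeZero.ne m))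
    refine ⟨mk _ ⟨fun _ => T.x 0, z, fun _ => T.ne 0, by simpa using hz⟩,
      mk _ ⟨fun _ => T.x 1, z', fun _ => T.ne 1, by simpa using hz'⟩, ?_⟩
    rw [mul_mk]
    congr 1
    refine Rep.ext' (fun s i => ?_) ?_
    · fin_cases s <;> rfl
    · change T.w = z * z'
      rw [h0, zero_mul]
      rw [← hz, h0, zero_pow (NeZero.ne m), zero_mul] at hT
      exact (pow_eq_zero_iff (NeZero.ne m)).mp hT
  · refine ⟨mk _ ⟨fun _ => T.x 0, z, fun _ => T.ne 0, by simpa using hz⟩,
      mk _ ⟨fun _ => T.x 1, T.w / z, fun _ => T.ne 1, ?_⟩, ?_⟩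
    · rw [div_pow, hT, hz, mul_div_cancel_left₀]
      · simp
      · rw [← hz]; exact pow_ne_zero _ h0
    · rw [mul_mk]
      congr 1
      refine Rep.ext' (fun s i => ?_) ?_
      · fin_cases s <;> rfl
      · change T.w = z * (T.w / z)
        rw [mul_div_cancel₀ _ h0]

lemma induced_mul (hF : ∀ s, (F s).IsHomogeneous (m * a s)) :
    Induced ((crv m (a 0) (F 0) (hF 0)).prod (crv m (a 1) (F 1) (hF 1))) (cyc k m a F hF)
      (fun x => mul a x.1 x.2) := by
  intro K _ _ hK c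
  obtain ⟨P, Q⟩ := c
  refine ⟨mul a P Q, fun v => ?_⟩
  obtain ⟨R, R', rfl, h0, h1, h2⟩ := exists_coord (hF := fun _ => hF 0) hK v P
  obtain ⟨S, S', rfl, h0', h1', h2'⟩ := exists_coord (hF := fun _ => hF 1) hK v Q
  change (cyc k m a F hF).eval hK (mul a (mk _ R) (mk _ S)) v =
    mul a ((crv m (a 0) (F 0) (hF 0)).eval hK (mk _ R) v)
      ((crv m (a 1) (F 1) (hF 1)).eval hK (mk _ S) v)
  rw [h0, h0', mul_mk, mul_mk]
  refine eval_eq hK v (fun s i => ?_) (h2.mul h2')
  fin_cases s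
  · exact h1 0 i
  · exact h1' 0 i

/-- Multiplication with fixed points of the second curve. -/
lemma induced_mul_left (hF : ∀ s, (F s).IsHomogeneous (m * a s)) {n : ℕ}
    (y : Fin n → CrvPt k k m (a 1) (F 1)) (σ : Equiv.Perm (Fin n)) :
    Induced ((crv m (a 0) (F 0) (hF 0)).pow n) ((cyc k m a F hF).pow n)
      (fun p i => mul a (p (σ i)) (y i)) := by
  intro K _ _ hK c
  choose d hd using fun i => cyc_const (hF := fun _ => hF 1) K hK (y i)
  choose e he using fun i => induced_mul hF K hK (c (σ i), d i)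
  refine ⟨e, fun v => funext fun i => ?_⟩
  have h1 := he i v
  change (cyc k m a F hF).eval hK (e i) v =
    mul a ((crv m (a 0) (F 0) (hF 0)).eval hK (c (σ i)) v) (y i)
  change (cyc k m a F hF).eval hK (e i) v =
    mul a ((crv m (a 0) (F 0) (hF 0)).eval hK (c (σ i)) v)
      ((crv m (a 1) (F 1) (hF 1)).eval hK (d i) v) at h1
  rw [h1, hd]

/-- Multiplication with fixed points of the first curve. -/
lemma induced_mul_right (hF : ∀ s, (F s).IsHomogeneous (m * a s)) {n : ℕ}
    (y : Fin n → CrvPt k k m (a 0) (F 0)) (σ : Equiv.Perm (Fin n)) :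
    Induced ((crv m (a 1) (F 1) (hF 1)).pow n) ((cyc k m a F hF).pow n)
      (fun p i => mul a (y i) (p (σ i))) := by
  intro K _ _ hK c
  choose d hd using fun i => cyc_const (hF := fun _ => hF 0) K hK (y i)
  choose e he using fun i => induced_mul hF K hK (d i, c (σ i))
  refine ⟨e, fun v => funext fun i => ?_⟩
  have h1 := he i v
  change (cyc k m a F hF).eval hK (e i) v =
    mul a (y i) ((crv m (a 1) (F 1) (hF 1)).eval hK (c (σ i)) v)
  change (cyc k m a F hF).eval hK (e i) v =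
    mul a ((crv m (a 0) (F 0) (hF 0)).eval hK (d i) v)
      ((crv m (a 1) (F 1) (hF 1)).eval hK (c (σ i)) v) at h1
  rw [h1, hd]

end CY
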