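import Mathlib
import Pool.Agent.Helper83.CY.Curve
import Pool.Agent.Helper71.SE.Zero
import Pool.Agent.Helper93.CY.VanComb

/-!
# The general vanishing lemma for eigenfunctions on powers of a cyclic cover of the line
-/

set_option linter.unusedSectionVars false

namespace CY

open VC VP VF Function Polynomial

universe u

section poly

variable {k : Type u} [Field k]

/-- The factor belonging to a parameter. -/
noncomputable def fac (s : k[X]) (μ : k) : k[X] := 1 - C μ * s

lemma fac_ne {s : k[X]} (hs : s.eval 0 = 0) (μ : k) : fac s μ ≠ 0 := by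
  intro h
  have := congrArg (Polynomial.eval 0) h
  simp [fac, hs] at this

lemma fac_zero (s : k[X]) : fac s (0 : k) = 1 := by simp [fac]

lemma rootMult_fac {s : k[X]} {y u0 : k} (hu : s.eval u0 = y⁻¹) (hy : y ≠ 0) {μ : k}
    (h : μ ≠ y) : (fac s μ).rootMultiplicity u0 = 0 := by
  apply rootMultiplicity_eq_zero
  rw [IsRoot.def]
  simp only [fac, eval_sub, eval_one, eval_mul, eval_C, hu]
  intro h0
  apply h
  field_simp at h0
  linear_combination -h0

lemma rootMult_fac_pos {s : k[X]} (hs : s.eval 0 = 0) {y u0 : k} (hu : s.eval u0 = y⁻¹)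
    (hy : y ≠ 0) : 0 < (fac s y).rootMultiplicity u0 := by
  rw [rootMultiplicity_pos (fac_ne hs y), IsRoot.def]
  simp [fac, hu, hy]

open Classical in
lemma rootMult_prod {s : k[X]} (hs : s.eval 0 = 0) {y u0 : k} (hu : s.eval u0 = y⁻¹)
    (hy : y ≠ 0) {ι : Type*} (I : Finset ι) (μ : ι → k) :
    (∏ i ∈ I, fac s (μ i)).rootMultiplicity u0 =
      (I.filter (fun i => μ i = y)).card * (fac s y).rootMultiplicity u0 := by
  induction I using Finset.induction_on with
  | empty => simp
  | insert a I ha ih =>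
    rw [Finset.prod_insert ha, rootMultiplicity_mul (mul_ne_zero (fac_ne hs _)
      (Finset.prod_ne_zero_iff.mpr fun i _ => fac_ne hs _)), ih, Finset.filter_insert]
    split_ifs with h
    · rw [Finset.card_insert_of_notMem (by simp [ha]), h]; ring
    · rw [rootMult_fac hu hy h, zero_add]

end poly

section interp

variable {k : Type u} [Field k] {β : Type} [Fintype β] [DecidableEq β]

/-- The interpolation polynomial. -/
noncomputable abbrev intp (c : β → k) (w : β → k) : k[X] := Lagrange.interpolate Finset.univ c w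

lemma intp_eval {c : β → k} (hc : Injective c) (w : β → k) (b : β) : (intp c w).eval (c b) = w b :=
  Lagrange.eval_interpolate_at_node w hc.injOn (Finset.mem_univ b)

lemma intp_coeff (c : β → k) (w : β → k) (N : ℕ) : (intp c w).coeff N =
    ∑ b, w b * (Lagrange.basis Finset.univ c b).coeff N := by
  unfold intp
  rw [Lagrange.interpolate_apply, finsetSum_coeff]
  simp only [coeff_C_mul]

lemma intp_natDegree_le {c : β → k} (hc : Injective c) (w : β → k) {x : ℕ}
    (h : ∀ r < Fintype.card β - 1 - x, (intp c w).coeff (x + 1 + r) = 0) :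
    (intp c w).natDegree ≤ x := by
  rw [natDegree_le_iff_coeff_eq_zero]
  intro N hN
  by_cases hlt : N < Fintype.card β
  · have h1 := h (N - (x + 1)) (by omega)
    rwa [Nat.add_sub_cancel' (by omega)] at h1
  · apply coeff_eq_zero_of_degree_lt
    refine lt_of_lt_of_le (Lagrange.degree_interpolate_lt w hc.injOn) ?_
    rw [Finset.card_univ]
    exact_mod_cast not_lt.mp hlt

open Classical in
/-- Fewer equations than parameters. -/
lemma exists_mu [IsAlgClosed k] {Λ : Type} [Fintype Λ] (l₀ : Λ) {c : β → k} (hc : Injective c)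
    {J : Type} [Fintype J] (v x : J → ℕ) (A : J → β → k) (π : (j : J) → Fin (v j) → β → Λ)
    (hcount : ∑ j, v j * (Fintype.card β - 1 - x j) + 1 < Fintype.card Λ) :
    ∃ μ : Λ → k, μ l₀ = 0 ∧ μ ≠ 0 ∧ ∀ j, ∀ l < v j, (intp c (fun b => A j b *
      (∏ i, (1 - C (μ (π j i b)) * X : k[X])).coeff (l + 1))).natDegree ≤ x j := by
  let var : Λ → MvPolynomial {l : Λ // l ≠ l₀} k := fun l =>
    if h : l ≠ l₀ then MvPolynomial.X ⟨l, h⟩ else 0
  let P : (j : J) → β → (MvPolynomial {l : Λ // l ≠ l₀} k)[X] := fun j b =>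
    ∏ i, (1 - C (var (π j i b)) * X)
  let I : Type := (j : J) × (Fin (v j) × Fin (Fintype.card β - 1 - x j))
  let f : I → MvPolynomial {l : Λ // l ≠ l₀} k := fun e =>
    ∑ b, MvPolynomial.C (A e.1 b * (Lagrange.basis Finset.univ c b).coeff (x e.1 + 1 + e.2.2)) *
      (P e.1 b).coeff (e.2.1 + 1)
  have hI : Fintype.card I = ∑ j, v j * (Fintype.card β - 1 - x j) := by
    simp [I, Fintype.card_sigma]
  have hΛ : Nat.card {l : Λ // l ≠ l₀} = Fintype.card Λ - 1 := by
    rw [Nat.card_eq_fintype_card, Fintype.card_subtype_compl, Fintype.card_subtype_eq]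
  -- evaluation
  let ex : ({l : Λ // l ≠ l₀} → k) → Λ → k := fun y l => if h : l ≠ l₀ then y ⟨l, h⟩ else 0
  have hvar : ∀ y l, MvPolynomial.eval y (var l) = ex y l := by
    intro y l
    simp only [var, ex]
    split_ifs
    · simp
    · simp
  have hP : ∀ y j b, (P j b).map (MvPolynomial.eval y) =
      ∏ i, (1 - C (ex y (π j i b)) * X : k[X]) := by
    intro y j b
    simp only [P, Polynomial.map_prod, Polynomial.map_sub, Polynomial.map_one,
      Polynomial.map_mul, Polynomial.map_C, Polynomial.map_X]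
    simp [hvar]
  have hf : ∀ y (e : I), MvPolynomial.eval y (f e) = (intp c (fun b => A e.1 b *
      (∏ i, (1 - C (ex y (π e.1 i b)) * X : k[X])).coeff (e.2.1 + 1))).coeff
        (x e.1 + 1 + e.2.2) := by
    intro y e
    rw [intp_coeff]
    simp only [f, map_sum, map_mul, MvPolynomial.eval_C]
    apply Finset.sum_congr rfl
    intro b _
    rw [← hP, coeff_map]
    ring
  obtain ⟨y, hy, hy'⟩ := Pool.Agent.Helper71.SE.exists_common_zero
    (f := fun r : Fin (Fintype.card I) => f ((Fintype.equivFin I).symm r))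
    (by
      intro r
      rw [hf]
      have h1 : ∀ j i b, ex 0 (π j i b) = 0 := by
        intro j i b
        simp [ex]
      simp only [h1, map_zero, zero_mul, sub_zero, Finset.prod_const_one]
      have h2 : (1 : k[X]).coeff (((Fintype.equivFin I).symm r).2.1 + 1) = 0 := by
        rw [coeff_one, if_neg (by omega)]
      simp only [h2, mul_zero]
      rw [intp_coeff]
      simp)
    (by rw [hI, hΛ]; omega)
  refine ⟨ex y, by simp [ex], ?_, ?_⟩
  · obtain ⟨l, hl⟩ := Function.ne_iff.mp hy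
    intro h0
    apply hl
    have := congrFun h0 l.1
    simpa [ex, l.2] using this
  · intro j l hl
    apply intp_natDegree_le hc
    intro r hr
    have h1 := hy' (Fintype.equivFin I ⟨j, (⟨l, hl⟩, ⟨r, hr⟩)⟩)
    rw [Equiv.symm_apply_apply, hf] at h1
    exact h1

end interp

variable {k : Type u} [Field k] [IsAlgClosed k] [CharZero k] {m : ℕ} [NeZero m]
  {E : AddChar (ZMod m) k}

/-- Functions as in `Blk` vanish when one of the points is a ramification point. -/
lemma Blk.ram (hE : IsFull E) {a : ℕ} {F : MvPolynomial (Fin 2) k}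
    {hF : F.IsHomogeneous (m * a)} {N : ℕ} {B : Finset (Fin N)} {χ : Fin N → ZMod m}
    {ψ : (Fin N → CrvPt k k m a F) → k} (hψ : Blk hF E B χ ψ) {p : Fin N → CrvPt k k m a F}
    {i : Fin N} (hi : i ∈ B) {R : Rep k k m (fun _ : Fin 1 => F)} (hp : p i = CY.mk _ R)
    (hR : R.w = 0) : ψ p = 0 := by
  have h1 := ram_zero (a := fun _ : Fin 1 => a) (F := fun _ => F) hE (hψ.ne i hi)
    (φ := fun P => ψ (update p i P)) (fun c P => by
      have := hψ.equi i hi (update p i P) c
      rwa [update_self, update_idem] at this) hR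
  beta_reduce at h1
  rwa [← hp, update_eq_self] at h1

section final

variable {Λ : Type} [Fintype Λ] [DecidableEq Λ] {β : Type} [Fintype β] {v : ZMod m → ℕ}

/-- Collecting equal factors. -/
lemma prod_collect (f : Λ → k[X]) (π : (j : ZMod m) → Fin (v j) → β → Λ) (e : ZMod m → β → ℕ) :
    ∏ j, ∏ b, (∏ i, f (π j i b)) ^ e j b =
      ∏ l, f l ^ (∑ j, ∑ i : Fin (v j), ∑ b, if π j i b = l then e j b else 0) := by
  have h1 : ∀ j b, (∏ i, f (π j i b)) ^ e j b =
      ∏ l, ∏ i, f l ^ (if π j i b = l then e j b else 0) := by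
    intro j b
    rw [Finset.prod_comm, ← Finset.prod_pow]
    apply Finset.prod_congr rfl
    intro i _
    rw [Finset.prod_eq_single (π j i b)]
    · rw [if_pos rfl]
    · intro l _ hl
      rw [if_neg hl.symm, pow_zero]
    · intro h; exact absurd (Finset.mem_univ _) h
  simp only [h1]
  simp only [← Finset.prod_pow_eq_pow_sum]
  rw [Finset.prod_congr rfl (fun j _ => Finset.prod_comm), Finset.prod_comm]
  apply Finset.prod_congr rfl
  intro l _
  apply Finset.prod_congr rfl
  intro j _
  rw [Finset.prod_comm]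

/-- **The general vanishing lemma.** -/
theorem kill_lemma (hE : IsFull E) {a : ℕ} {c : β → k}
    (hc : Injective c) {n : β → ℕ} (hn0 : ∀ b, n b ≠ 0)
    (hn : (aform c n).IsHomogeneous (m * a)) (hna : ∑ b, n b = m * a)
    {N : ℕ} {B : Finset (Fin N)} {χ : Fin N → ZMod m} {ψ : (Fin N → CrvPt k k m a (aform c n)) → k}
    (hψ : Blk hn E B χ ψ) {p : Fin N → CrvPt k k m a (aform c n)} {t z : Fin N → k}
    (hz : ∀ i, z i ^ m = ∏ b, (t i - algebraMap k k (c b)) ^ n b)
    (hp : ∀ i ∈ B, p i = apt a c n (t i) (z i) (hz i))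
    (v : ZMod m → ℕ) {Λ : Type} [Fintype Λ] [DecidableEq Λ] (l₀ l₁ : Λ)
    (π : (j : ZMod m) → Fin (v j) → β → Λ)
    (hZ : ∀ l, l ≠ l₀ → l ≠ l₁ →
      ∑ j : ZMod m, ∑ i : Fin (v j), ∑ b : β, (if π j i b = l then j * (n b : ZMod m) else 0) = 0)
    (hcount : ∑ j, v j * (Fintype.card β - 1 - (B.filter (fun i => χ i = j)).card) + 1 <
      Fintype.card Λ)
    (hU : ∀ μ : Λ → k, μ l₀ = 0 → μ ≠ 0 → ∃ (j : ZMod m) (b b' : β) (y : k), y ≠ 0 ∧
      Nat.card {i : Fin (v j) // μ (π j i b') = y} < Nat.card {i : Fin (v j) // μ (π j i b) = y}) :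
    ψ p = 0 := by
  classical
  have hm : m ≠ 0 := NeZero.ne m
  by_cases hz0 : ∃ i ∈ B, z i = 0
  · obtain ⟨i, hi, hi0⟩ := hz0
    exact hψ.ram hE hi (hp i hi) hi0
  push Not at hz0
  set F : ZMod m → k[X] := fun j => ∏ i ∈ B.filter (fun i => χ i = j), (X - C (t i)) with hF
  have hFdeg : ∀ j, (F j).natDegree = (B.filter (fun i => χ i = j)).card := by
    intro j
    rw [hF, natDegree_finsetProd_X_sub_C_eq_card]
  set A : ZMod m → β → k := fun j b => (F j).eval (c b) with hA
  have hA0 : ∀ j b, A j b ≠ 0 := by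
    intro j b
    simp only [hA, hF, eval_prod, eval_sub, eval_X, eval_C]
    rw [Finset.prod_ne_zero_iff]
    intro i hi h0
    have hiB := (Finset.mem_filter.mp hi).1
    apply hz0 i hiB
    have h1 := hz i
    rw [Finset.prod_eq_zero (Finset.mem_univ b) (by
      rw [Algebra.algebraMap_self, RingHom.id_apply]
      rw [sub_eq_zero] at h0
      rw [h0, sub_self, zero_pow (hn0 b)])] at h1
    exact (pow_eq_zero_iff hm).mp h1
  obtain ⟨μ, hμ0, hμne, hμ⟩ := exists_mu l₀ hc v (fun j => (B.filter (fun i => χ i = j)).card) A π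
    hcount
  -- the substitution
  obtain ⟨s, hs0, hs1, hs2⟩ : ∃ s : k[X], s.eval 0 = 0 ∧ (μ l₁ = 0 ∨ fac s (μ l₁) = (1 - X) ^ m) ∧
      ∀ y : k, ∃ u, s.eval u = y := by
    by_cases h : μ l₁ = 0
    · exact ⟨X, by simp, Or.inl h, fun y => ⟨y, by simp⟩⟩
    · refine ⟨C (μ l₁)⁻¹ * (1 - (1 - X) ^ m), by simp, Or.inr ?_, fun y => ?_⟩
      · rw [fac, ← mul_assoc, ← C_mul, mul_inv_cancel₀ h, C_1, one_mul, sub_sub_cancel]
      · obtain ⟨w, hw⟩ := IsAlgClosed.exists_pow_nat_eq (1 - μ l₁ * y) (Nat.pos_of_ne_zero hm)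
        refine ⟨1 - w, ?_⟩
        simp only [eval_mul, eval_C, eval_sub, eval_one, eval_pow, eval_X, sub_sub_cancel, hw]
        field_simp
  -- the family
  set Q : ZMod m → β → k[X] := fun j b => ∏ i, (1 - C (μ (π j i b)) * X) with hQ
  have hQ0 : ∀ j b, (Q j b).coeff 0 = 1 := by
    intro j b
    rw [coeff_zero_eq_eval_zero]
    simp [hQ, eval_prod]
  have hQd : ∀ j b, (Q j b).natDegree ≤ v j := by
    intro j b
    refine (natDegree_prod_le _ _).trans ?_
    refine (Finset.sum_le_card_nsmul _ _ 1 (fun i _ => ?_)).trans (by simp)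
    refine (natDegree_sub_le _ _).trans ?_
    rw [natDegree_one]
    exact max_le (Nat.zero_le _) ((natDegree_C_mul_le _ _).trans natDegree_X_le)
  set G : ZMod m → ℕ → k[X] := fun j l => if l = 0 then F j else
    intp c (fun b => A j b * (Q j b).coeff l) with hG
  have hGd : ∀ j, ∀ l < v j + 1, (G j l).natDegree ≤ (B.filter (fun i => χ i = j)).card := by
    intro j l hl
    simp only [hG]
    split_ifs with h
    · exact (hFdeg j).le
    · obtain ⟨l, rfl⟩ := Nat.exists_eq_succ_of_ne_zero h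
      exact hμ j l (by omega)
  have hGe : ∀ j l b, (G j l).eval (c b) = A j b * (Q j b).coeff l := by
    intro j l b
    simp only [hG]
    split_ifs with h
    · rw [h, hQ0, mul_one]
    · exact intp_eval hc _ b
  set Φ₀ : ZMod m → k[X][X] := fun j => ∑ l ∈ Finset.range (v j + 1), (G j l).map C * C (X ^ l)
    with hΦ₀
  set Φ : ZMod m → k[X][X] := fun j => (Φ₀ j).map (compRingHom s) with hΦ
  have hΦ₀e : ∀ j b, (Φ₀ j).eval (C (c b)) = C (A j b) * Q j b := by
    intro j b
    simp only [hΦ₀, eval_finsetSum, eval_mul, eval_C, eval_map_apply, hGe]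
    conv_rhs => rw [(Q j b).as_sum_range' (v j + 1) (Nat.lt_succ_of_le (hQd j b)), Finset.mul_sum]
    apply Finset.sum_congr rfl
    intro l _
    rw [C_mul, ← C_mul_X_pow_eq_monomial, mul_assoc]
  have hΦe : ∀ j b, (Φ j).eval (C (c b)) = C (A j b) * ∏ i, fac s (μ (π j i b)) := by
    intro j b
    have h1 : (Φ j).eval (C (c b)) = compRingHom s ((Φ₀ j).eval (C (c b))) := by
      rw [hΦ, ← eval_map_apply]
      simp
    rw [h1, hΦ₀e]
    simp [hQ, fac, Polynomial.prod_comp]
  have hdeg : ∀ j, (Φ j).natDegree ≤ (B.filter (fun i => χ i = j)).card := by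
    intro j
    refine natDegree_map_le.trans ?_
    simp only [hΦ₀]
    refine natDegree_sum_le_of_forall_le _ _ (fun l hl => ?_)
    refine (natDegree_mul_C_le _ _).trans (natDegree_map_le.trans ?_)
    exact hGd j l (Finset.mem_range.mp hl)
  have h0 : ∀ j, (Φ j).map (evalRingHom 0) = F j := by
    intro j
    have h1 : (evalRingHom (0 : k)).comp (compRingHom s) = evalRingHom 0 := by
      ext x
      · simp
      · simp [hs0]
    simp only [hΦ]
    rw [Polynomial.map_map, h1]
    simp only [hΦ₀, Polynomial.map_sum, Polynomial.map_mul, Polynomial.map_C, Polynomial.map_map]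
    rw [Finset.sum_eq_single 0]
    · have h2 : (evalRingHom (0 : k)).comp C = RingHom.id k := by
        ext x; simp
      rw [h2, Polynomial.map_id]
      simp [hG]
    · intro l _ hl
      simp [hl]
    · intro h; exact absurd (Finset.mem_range.mpr (Nat.succ_pos _)) h
  -- the product
  set Nl : Λ → ℕ := fun l => ∑ j, ∑ i : Fin (v j), ∑ b, if π j i b = l then j.val * n b else 0
    with hNl
  have hdiv : ∀ l, l ≠ l₀ → l ≠ l₁ → m ∣ Nl l := by
    intro l h1 h2
    rw [← ZMod.natCast_eq_zero_iff]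
    have h3 := hZ l h1 h2
    rw [← h3]
    simp only [hNl, Nat.cast_sum]
    refine Finset.sum_congr rfl fun j _ => Finset.sum_congr rfl fun i _ =>
      Finset.sum_congr rfl fun b _ => ?_
    split_ifs
    · rw [Nat.cast_mul, ZMod.natCast_zmod_val]
    · simp
  have hroot : ∀ l, ∃ S : k[X], fac s (μ l) ^ Nl l = S ^ m := by
    intro l
    by_cases h1 : l = l₀
    · exact ⟨1, by rw [h1, hμ0, fac_zero, one_pow, one_pow]⟩
    by_cases h2 : l = l₁
    · rcases hs1 with h3 | h3
      · exact ⟨1, by rw [h2, h3, fac_zero, one_pow, one_pow]⟩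
      · exact ⟨(1 - X) ^ Nl l, by rw [h2, h3, ← pow_mul, ← pow_mul, mul_comm]⟩
    obtain ⟨q, hq⟩ := hdiv l h1 h2
    exact ⟨fac s (μ l) ^ q, by rw [hq, ← pow_mul, mul_comm]⟩
  choose S hS using hroot
  have hprod : ∏ j, ∏ b, ((Φ j).eval (C (c b))) ^ (j.val * n b) =
      C (∏ j, ∏ b, A j b ^ (j.val * n b)) * (∏ l, S l) ^ m := by
    simp only [hΦe, mul_pow, Finset.prod_mul_distrib]
    rw [prod_collect (fun l => fac s (μ l)) π (fun j b => j.val * n b), ← Finset.prod_pow,
      ← Finset.prod_congr rfl (fun l _ => hS l)]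
    congr 1
    simp only [map_prod, C_pow]
  refine curve_lemma hE hc hn0 hn hna hψ hz hp Φ hdeg h0 _ _ hprod ?_
  obtain ⟨j, b, b', y, hy, hlt⟩ := hU μ hμ0 hμne
  obtain ⟨u, hu⟩ := hs2 y⁻¹
  refine ⟨u, j, b, b', ?_⟩
  have hmult : ∀ b, ((Φ j).eval (C (c b))).rootMultiplicity u =
      Nat.card {i : Fin (v j) // μ (π j i b) = y} * (fac s y).rootMultiplicity u := by
    intro b
    rw [hΦe, rootMultiplicity_mul (mul_ne_zero (C_ne_zero.mpr (hA0 j b))
      (Finset.prod_ne_zero_iff.mpr fun i _ => fac_ne hs0 _)), rootMultiplicity_C, zero_add,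
      rootMult_prod hs0 hu hy, Nat.card_eq_fintype_card, Fintype.card_subtype]
  rw [hmult, hmult]
  exact Nat.mul_lt_mul_of_pos_right hlt (rootMult_fac_pos hs0 hu hy)

end final

/-- The vanishing theorem for curves of type `(s, d)`, finite points. -/
theorem van_fin (hE : IsFull E) (hm : 2 ≤ m) {s d : ℕ} (hsd : 0 < s + d)
    {c : Br m s d → k} (hc : Injective c)
    (hn : (aform c (mult m s d)).IsHomogeneous (m * (s + up m d)))
    {N : ℕ} {B : Finset (Fin N)} {χ : Fin N → ZMod m}
    {ψ : (Fin N → CrvPt k k m (s + up m d) (aform c (mult m s d))) → k}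
    (hψ : Blk hn E B χ ψ) (hx : ¬ Surv m s d (fun j => (B.filter (fun i => χ i = j)).card))
    {p : Fin N → CrvPt k k m (s + up m d) (aform c (mult m s d))} {t z : Fin N → k}
    (hz : ∀ i, z i ^ m = ∏ b, (t i - algebraMap k k (c b)) ^ mult m s d b)
    (hp : ∀ i ∈ B, p i = apt (s + up m d) c (mult m s d) (t i) (z i) (hz i)) : ψ p = 0 := by
  obtain ⟨v, Λ, i1, i2, l₀, l₁, π, h1, h2, h3⟩ := van_part hm hsd hx k
  exact kill_lemma hE hc (mult_ne_zero hm) hn (sum_mult hm s d) hψ hz hp v l₀ l₁ π h1 h2 h3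

end CY
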