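import Mathlib
import Pool.Agent.Helper9.NS
import Pool.Agent.Helper70.VF.Assembly
import Pool.Agent.Helper9.CY.Kill

/-!
# Change of coordinates on the projective line
-/

set_option linter.unusedSectionVars false

namespace CY

open VC VP VF Function

universe u

/-- The substitution `x = (y_0, y_1 + lam y_0)` maps the form `F` to `δ ^ m G`. -/
structure Shear {k : Type u} [Field k] (F G : MvPolynomial (Fin 2) k) (m : ℕ) (lam δ : k) :
    Prop where
  eq : ∀ (K : Type u) [Field K] [Algebra k K] (y : Fin 2 → K),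
    MvPolynomial.aeval ![y 0, y 1 + algebraMap k K lam * y 0] F =
      algebraMap k K δ ^ m * MvPolynomial.aeval y G

section

variable {k K : Type u} [Field k] [Field K] [Algebra k K] {m a : ℕ} [NeZero m]
  {F G : MvPolynomial (Fin 2) k} {lam δ : k}

/-- The change of coordinates. -/
def Rep.shear (h : Shear F G m lam δ) (R : Rep k K m (fun _ : Fin 1 => G)) :
    Rep k K m (fun _ : Fin 1 => F) where
  x := fun s => ![R.x s 0, R.x s 1 + algebraMap k K lam * R.x s 0]
  w := algebraMap k K δ * R.w
  ne := fun s h0 => R.ne s (by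
    have e0 : R.x s 0 = 0 := congrFun h0 0
    have e1 : R.x s 1 + algebraMap k K lam * R.x s 0 = 0 := congrFun h0 1
    funext i
    fin_cases i
    · exact e0
    · change R.x s 1 = 0
      rwa [e0, mul_zero, add_zero] at e1)
  eqn := by
    rw [mul_pow, R.eqn, Finset.univ_unique, Finset.prod_singleton, Finset.prod_singleton]
    exact (h.eq K _).symm

/-- The change of coordinates. -/
def shear (a : ℕ) (h : Shear F G m lam δ) : CrvPt k K m a G → CrvPt k K m a F :=
  Quotient.map (Rep.shear h) (by
    rintro R S ⟨c, hc, h1, h2⟩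
    refine ⟨c, hc, fun s i => ?_, ?_⟩
    · fin_cases i
      · exact h1 s 0
      · change S.x s 1 + algebraMap k K lam * S.x s 0 =
          c s * (R.x s 1 + algebraMap k K lam * R.x s 0)
        rw [h1, h1]; ring
    · change algebraMap k K δ * S.w = _ * (algebraMap k K δ * R.w)
      rw [h2]; ring)

lemma shear_mk (h : Shear F G m lam δ) (R : Rep k K m (fun _ : Fin 1 => G)) :
    shear a h (mk _ R) = mk _ (R.shear h) := rfl

lemma shear_tw (h : Shear F G m lam δ) {E : AddChar (ZMod m) k} (c : ZMod m)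
    (P : CrvPt k K m a G) : shear a h (tw E c P) = tw E c (shear a h P) := by
  obtain ⟨R, rfl⟩ := exists_rep P
  rw [tw_mk, shear_mk, shear_mk, tw_mk]
  congr 1
  refine Rep.ext' (fun _ _ => rfl) ?_
  change algebraMap k K δ * (algebraMap k K (E c) * R.w) =
    algebraMap k K (E c) * (algebraMap k K δ * R.w)
  ring

end

variable {k : Type u} [Field k] [IsAlgClosed k] [CharZero k] {m : ℕ} [NeZero m]
  {E : AddChar (ZMod m) k}

lemma induced_shear {a : ℕ} {F G : MvPolynomial (Fin 2) k} {lam δ : k} (h : Shear F G m lam δ)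
    (hF : F.IsHomogeneous (m * a)) (hG : G.IsHomogeneous (m * a)) :
    Induced (crv m a G hG) (crv m a F hF) (shear a h) := by
  intro K _ _ hK P
  refine ⟨shear a h P, fun v => ?_⟩
  obtain ⟨R, S, rfl, h0, h1, h2⟩ := exists_coord (hF := fun _ => hG) hK v P
  rw [h0, shear_mk, shear_mk]
  refine eval_eq hK v (fun s i => ?_) ?_
  · fin_cases i
    · exact h1 s 0
    · exact (h1 s 1).add ((isRes_const lam).mul (h1 s 0))
  · exact (isRes_const δ).mul h2

omit [IsAlgClosed k] in
/-- There is a linear form which does not vanish at finitely many given vectors. -/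
lemma exists_slope {ι : Type*} [Finite ι] (x : ι → Fin 2 → k) (hx : ∀ i, x i ≠ 0) :
    ∃ lam : k, ∀ i, x i 1 - lam * x i 0 ≠ 0 := by
  obtain ⟨lam, hlam⟩ := (Set.finite_range (fun i => x i 1 / x i 0)).exists_notMem
  refine ⟨lam, fun i h0 => ?_⟩
  by_cases h : x i 0 = 0
  · rw [h, mul_zero, sub_zero] at h0
    apply hx i
    funext j
    fin_cases j
    · exact h
    · exact h0
  · apply hlam
    refine ⟨i, ?_⟩
    change x i 1 / x i 0 = lam
    rw [sub_eq_zero] at h0
    rw [h0, mul_div_assoc, div_self h, mul_one]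

omit [CharZero k] [IsAlgClosed k] [NeZero m] in
lemma aeval_gform {K : Type u} [Field K] [Algebra k K] {β : Type} [Fintype β] (α : β → Fin 2 → k)
    (n : β → ℕ) (x : Fin 2 → K) :
    MvPolynomial.aeval x (gform α n) =
      ∏ b, (x 0 * algebraMap k K (α b 1) - x 1 * algebraMap k K (α b 0)) ^ n b := by
  unfold gform
  simp [map_prod]

omit [CharZero k] in
/-- Coordinates in which the zeros of a form are finite. -/
lemma exists_shear {β : Type} [Fintype β] {κ : k} (hκ : κ ≠ 0) {α : β → Fin 2 → k}
    (hα : ∀ b b', b ≠ b' → α b 0 * α b' 1 - α b 1 * α b' 0 ≠ 0) (n : β → ℕ) {lam : k}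
    (hl : ∀ b, α b 1 - lam * α b 0 ≠ 0) :
    ∃ (c : β → k) (δ : k), Injective c ∧ δ ≠ 0 ∧
      Shear (MvPolynomial.C κ * gform α n) (aform c n) m lam δ := by
  set ρ : β → k := fun b => α b 1 - lam * α b 0 with hρ
  obtain ⟨δ, hδ⟩ := IsAlgClosed.exists_pow_nat_eq (κ * ∏ b, ρ b ^ n b)
    (Nat.pos_of_ne_zero (NeZero.ne m))
  refine ⟨fun b => α b 0 / ρ b, δ, ?_, ?_, ⟨fun K _ _ y => ?_⟩⟩
  · intro b b' h
    by_contra hne
    apply hα b b' hne
    change α b 0 / ρ b = α b' 0 / ρ b' at h
    rw [div_eq_div_iff (hl b) (hl b')] at h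
    linear_combination h
  · rintro rfl
    rw [zero_pow (NeZero.ne m)] at hδ
    have h1 : ∏ b, ρ b ^ n b ≠ 0 :=
      Finset.prod_ne_zero_iff.mpr fun b _ => pow_ne_zero _ (hl b)
    exact mul_ne_zero hκ h1 hδ.symm
  · rw [map_mul, MvPolynomial.aeval_C, aeval_gform, aeval_aform, ← map_pow, hδ, map_mul, map_prod,
      mul_assoc, ← Finset.prod_mul_distrib]
    congr 1
    apply Finset.prod_congr rfl
    intro b _
    rw [map_pow, ← mul_pow]
    congr 1
    have h1 : algebraMap k K (ρ b) ≠ 0 := by
      rw [Ne, _root_.map_eq_zero]; exact hl b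
    rw [map_div₀]
    have h2 : algebraMap k K (ρ b) = algebraMap k K (α b 1) -
        algebraMap k K lam * algebraMap k K (α b 0) := by
      rw [← map_mul, ← map_sub]
    simp only [Matrix.cons_val_zero, Matrix.cons_val_one]
    field_simp
    rw [h2]
    ring

/-- **Vanishing for curves of type `(s, d)`.** -/
theorem van (hE : IsFull E) (hm : 2 ≤ m) {s d : ℕ} (hsd : 0 < s + d)
    {F : MvPolynomial (Fin 2) k} (hF : F.IsHomogeneous (m * (s + up m d))) (hT : IsType m s d F)
    {N : ℕ} {B : Finset (Fin N)} {χ : Fin N → ZMod m} {ψ : (Fin N → CrvPt k k m (s + up m d) F) → k}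
    (hψ : Blk hF E B χ ψ) (hx : ¬ Surv m s d (fun j => (B.filter (fun i => χ i = j)).card))
    (p : Fin N → CrvPt k k m (s + up m d) F) : ψ p = 0 := by
  obtain ⟨κ, α, hκ, hα0, hα, rfl⟩ := hT
  choose R hR using fun i => exists_rep (p i)
  obtain ⟨lam, hlam⟩ := exists_slope (ι := Br m s d ⊕ Fin N)
    (Sum.elim α (fun i => (R i).x 0)) (by
      rintro (b | i)
      · exact hα0 b
      · exact (R i).ne 0)
  obtain ⟨c, δ, hc, hδ, hsh⟩ := exists_shear (m := m) hκ hα (mult m s d) (lam := lam)
    (fun b => hlam (Sum.inl b))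
  have hn : (aform c (mult m s d)).IsHomogeneous (m * (s + up m d)) := by
    have := aform_hom c (mult m s d)
    rwa [sum_mult hm] at this
  set θ : CrvPt k k m (s + up m d) (aform c (mult m s d)) → CrvPt k k m (s + up m d)
    (MvPolynomial.C κ * gform α (mult m s d)) := shear (s + up m d) hsh with hθ
  have hψ' : Blk hn E B χ (fun q => ψ (fun i => θ (q i))) := by
    refine ⟨?_, hψ.ne, ?_, ?_⟩
    · exact hψ.kills.comp (induced_pow (X := crv m (s + up m d) (aform c (mult m s d)) hn)
        (Y := crv m (s + up m d) (MvPolynomial.C κ * gform α (mult m s d)) hF)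
        (fun _ => θ) (fun _ => induced_shear hsh hF hn))
    · intro i hi q b
      have h1 : (fun l => θ (update q i (tw E b (q i)) l)) =
          update (fun l => θ (q l)) i (tw E b (θ (q i))) := by
        funext l
        by_cases hl : l = i
        · subst hl
          rw [update_self, update_self, hθ, shear_tw]
        · rw [update_of_ne hl, update_of_ne hl]
      rw [h1]
      exact hψ.equi i hi (fun l => θ (q l)) b
    · intro i hi j hj hij q
      exact hψ.symm i hi j hj hij (fun l => θ (q l))
  -- the affine coordinates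
  set ρ : Fin N → k := fun i => (R i).x 0 1 - lam * (R i).x 0 0 with hρ
  have hρ0 : ∀ i, ρ i ≠ 0 := fun i => hlam (Sum.inr i)
  set t : Fin N → k := fun i => (R i).x 0 0 / ρ i with ht
  set z : Fin N → k := fun i => (R i).w / (δ * ρ i ^ (s + up m d)) with hz
  have hzt : ∀ i, z i ^ m = ∏ b, (t i - algebraMap k k (c b)) ^ mult m s d b := by
    intro i
    have h1 := hsh.eq k ![t i, 1]
    rw [aeval_aform] at h1
    simp only [Matrix.cons_val_zero, Matrix.cons_val_one, mul_one] at h1
    have h2 := (R i).eqn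
    rw [Finset.univ_unique, Finset.prod_singleton] at h2
    have h3 : (R i).x default = fun j => ρ i * (![t i, 1 + algebraMap k k lam * t i] : Fin 2 → k) j
        := by
      funext j
      change (R i).x 0 j = _
      fin_cases j
      · change (R i).x 0 0 = ρ i * t i
        simp only [ht]
        rw [mul_div_cancel₀ _ (hρ0 i)]
      · change (R i).x 0 1 = ρ i * (1 + lam * t i)
        simp only [ht]
        have := hρ0 i
        field_simp
        simp only [hρ]
        ring
    rw [h3, aeval_smul_of_hom hF, h1] at h2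
    simp only [hz]
    rw [div_pow, h2, mul_pow, Algebra.algebraMap_self, RingHom.id_apply, ← pow_mul,
      mul_comm (s + up m d) m]
    have h4 : ρ i ^ (m * (s + up m d)) ≠ 0 := pow_ne_zero _ (hρ0 i)
    have h5 : δ ^ m ≠ 0 := pow_ne_zero _ hδ
    field_simp
  have hfin := van_fin hE hm hsd hc hn hψ' hx hzt (p := fun i => apt (s + up m d) c (mult m s d)
    (t i) (z i) (hzt i)) (fun i _ => rfl)
  rw [← hfin]
  congr 1
  funext i
  rw [hR i]
  unfold apt cpt
  rw [hθ, shear_mk]
  symm
  rw [mk_eq_iff]
  refine ⟨fun _ => ρ i, fun _ => hρ0 i, fun j l => ?_, ?_⟩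
  · rw [Subsingleton.elim j 0]
    fin_cases l
    · change (R i).x 0 0 = ρ i * t i
      simp only [ht]
      rw [mul_div_cancel₀ _ (hρ0 i)]
    · change (R i).x 0 1 = ρ i * (1 + lam * t i)
      simp only [ht]
      have := hρ0 i
      field_simp
      simp only [hρ]
      ring
  · change (R i).w = (∏ _ : Fin 1, ρ i ^ (s + up m d)) * (δ * z i)
    simp only [hz, Finset.univ_unique, Finset.prod_singleton]
    have := pow_ne_zero (s + up m d) (hρ0 i)
    field_simp

end CY
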