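import Mathlib
import Pool.Agent.Helper9.CY.Basic
import Pool.Agent.Helper83.VH.Decomp

/-!
# Invariant functions are constant
-/

set_option linter.unusedSectionVars false

namespace CY

open VC VP VF VH Function Polynomial

universe u

variable {k : Type u} [Field k] [IsAlgClosed k] [CharZero k] {m : ℕ} [NeZero m]
  {r : ℕ} {a : Fin r → ℕ} {F : Fin r → MvPolynomial (Fin 2) k} {E : AddChar (ZMod m) k}

/-- The action of the roots of unity. -/
def act (E : AddChar (ZMod m) k) (hF : ∀ s, (F s).IsHomogeneous (m * a s)) :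
    VH.Act (cyc k m a F hF) m where
  act := tw E
  zero := tw_zero
  add x y p := (tw_tw x y p).symm
  ind x := induced_tw E x

omit [IsAlgClosed k] [CharZero k] in
/-- Two points with the same coordinates on the projective lines. -/
lemma eq_tw (hE : IsFull E) {R S : Rep k k m F} (h : ∀ s i, R.x s i = S.x s i) :
    ∃ c, mk a R = tw E c (mk a S) := by
  have h1 : R.w ^ m = S.w ^ m := by
    rw [R.eqn, S.eqn]
    apply Finset.prod_congr rfl
    intro s _
    congr 1
    rw [show R.x s = S.x s from funext fun i => h s i]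
  by_cases hS : S.w = 0
  · refine ⟨0, ?_⟩
    rw [tw_zero]
    congr 1
    refine Rep.ext' h ?_
    rw [hS, zero_pow (NeZero.ne m)] at h1
    rw [hS]
    exact (pow_eq_zero_iff (NeZero.ne m)).mp h1
  · obtain ⟨c, hc⟩ := hE.2 (R.w / S.w) (by rw [div_pow, h1, div_self (pow_ne_zero _ hS)])
    refine ⟨c, ?_⟩
    rw [tw_mk]
    congr 1
    refine Rep.ext' h ?_
    change R.w = algebraMap k k (E c) * S.w
    rw [Algebra.algebraMap_self, RingHom.id_apply, hc, div_mul_cancel₀ _ hS]

/-- Invariant functions are constant. -/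
theorem const_of_inv {hF : ∀ s, (F s).IsHomogeneous (m * a s)} (hE : IsFull E)
    {φ : CycPt k k m a F → k} (hk : Kills (cyc k m a F hF) φ) (hinv : ∀ c P, φ (tw E c P) = φ P)
    (P Q : CycPt k k m a F) : φ P = φ Q := by
  obtain ⟨R, rfl⟩ := exists_rep P
  obtain ⟨S, rfl⟩ := exists_rep Q
  set q : Fin r → Fin 2 → k[X] := fun s i => lin (R.x s i) (S.x s i) with hq
  obtain ⟨K, _, _, τ, y, hK, hτ, hy⟩ := exists_poly_roots (k := k) (n := 1) (NeZero.ne m)
    (fun _ => ∏ s, MvPolynomial.aeval (q s) (F s))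
  let T : Rep k K m F :=
    { x := fun s i => aeval τ (q s i)
      w := y 0
      ne := by
        intro s h0
        obtain ⟨i, hi⟩ := Function.ne_iff.mp (R.ne s)
        apply aeval_ne_zero hτ (p := q s i) _ (congrFun h0 i)
        apply poly_ne_zero (a := 0)
        simp only [hq, lin_zero]
        exact hi
      eqn := by
        rw [hy, map_prod]
        apply Finset.prod_congr rfl
        intro s _
        exact MvPolynomial.comp_aeval_apply (f := q s) (aeval τ) (F s) }
  have key : ∀ (b : k) (U : Rep k k m F), (∀ s i, (q s i).eval b = U.x s i) → ∀ v : Place k K,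
      IsRes v τ b → φ ((cyc k m a F hF).eval hK (mk a T) v) = φ (mk a U) := by
    intro b U hU v hv
    have h1 : ∀ s i, IsRes v (T.x s i) (U.x s i) := by
      intro s i
      rw [← hU]
      exact hv.poly
    have h2 := res_form (F := F) h1
    rw [← T.eqn] at h2
    obtain ⟨e, he, he'⟩ := exists_res_of_pow hK (NeZero.ne m) h2
    rw [eval_eq (S := ⟨U.x, e, U.ne, he'⟩) hK v h1 he]
    obtain ⟨c, hc⟩ := eq_tw (a := a) hE (R := ⟨U.x, e, U.ne, he'⟩) (S := U) (fun _ _ => rfl)
    rw [hc, hinv]
  exact path hk hK (mk a T) hτ zero_ne_one (key 0 R (fun s i => lin_zero _ _))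
    (key 1 S (fun s i => lin_one _ _))

omit [CharZero k] [IsAlgClosed k] in
/-- Comparison of two faithful characters. -/
lemma exists_mul (hE : IsFull E) {E' : AddChar (ZMod m) k} (hE' : IsFull E') :
    ∃ u : ZMod m, (∀ x, E' x = E (u * x)) ∧ ∀ x y, u * x = u * y → x = y := by
  obtain ⟨u, hu⟩ := hE.2 (E' 1) (char_pow E' 1)
  have h1 : ∀ x, E' x = E (u * x) := by
    intro x
    have e1 : x = x.val • (1 : ZMod m) := by simp
    have e2 : u * x = x.val • u := by
      rw [nsmul_eq_mul, ZMod.natCast_zmod_val, mul_comm]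
    rw [e2, AddChar.map_nsmul_eq_pow, hu, ← AddChar.map_nsmul_eq_pow, ← e1]
  refine ⟨u, h1, fun x y h => ?_⟩
  rw [← sub_eq_zero]
  apply hE'.1
  rw [h1, mul_sub, h, sub_self, AddChar.map_zero_eq_one]

/-- Eigenfunctions for another character. -/
lemma _root_.VH.EigA.change {X : Variety k} {α : Act X m} (hE : IsFull E)
    {E' : AddChar (ZMod m) k} (hE' : IsFull E') {n : ℕ} {χ : Fin n → ZMod m} {Ψ : (X.pow n).Pt → k}
    (h : EigA E' α χ Ψ) : ∃ χ', EigA E α χ' Ψ := by
  obtain ⟨u, hu, hu'⟩ := exists_mul hE hE'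
  refine ⟨fun i => u * χ i, h.kills, fun p i x => ?_, fun i j hij h' p => ?_⟩
  · rw [h.equi, hu, mul_assoc]
  · exact h.alt i j hij (hu' _ _ h') p

end CY
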