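import Mathlib
import Pool.Agent.Helper9.NS
import Pool.Agent.Helper70.BQ.Rep
import Pool.Agent.Helper9.CY.Comb
import Pool.Agent.Helper9.CY.Mul
import Pool.Agent.Helper9.CY.Trans
import Pool.Agent.Helper9.CY.Triv

/-!
# Voisin's conjecture for the surfaces `w ^ m = f (x) g (y)`
-/

set_option linter.unusedSectionVars false

namespace CY

open VC VP VF VH Function Polynomial

universe u

variable {k : Type u} [Field k] [IsAlgClosed k] [CharZero k] {m : ℕ} [NeZero m]
  {E : AddChar (ZMod m) k}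

/-- The vanishing theorem, with the degree as a variable. -/
theorem van' (hE : IsFull E) (hm : 2 ≤ m) {s d a : ℕ} (ha : a = s + up m d) (hsd : 0 < s + d)
    {F : MvPolynomial (Fin 2) k} (hF : F.IsHomogeneous (m * a)) (hT : IsType m s d F)
    {N : ℕ} {B : Finset (Fin N)} {χ : Fin N → ZMod m} {ψ : (Fin N → CrvPt k k m a F) → k}
    (hψ : Blk hF E B χ ψ) (hne : ∃ p, ψ p ≠ 0) :
    Surv m s d (fun j => (B.filter (fun i => χ i = j)).card) := by
  subst ha
  by_contra hx
  obtain ⟨p, hp⟩ := hne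
  exact hp (van hE hm hsd hF hT hψ hx p)

variable {a : Fin 2 → ℕ} {F : Fin 2 → MvPolynomial (Fin 2) k}

open Classical in
/-- Symmetrization over the positions in `B` of a function of points of the first curve. -/
lemma blk_left {hF : ∀ s, (F s).IsHomogeneous (m * a s)} {n : ℕ} {χ : Fin n → ZMod m}
    {Ψ : ((cyc k m a F hF).pow n).Pt → k} (h : EigA E (act E hF) χ Ψ) (hχ : ∀ i, χ i ≠ 0)
    (B : Finset (Fin n)) (y : Fin n → CrvPt k k m (a 1) (F 1)) :
    Blk (hF 0) E B χ (fun p => ∑ τ ∈ BQ.permTy χ B, Ψ (fun i => mul a (p (τ i)) (y i))) := by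
  refine ⟨Kills.sum _ fun τ _ => h.kills.comp (induced_mul_left hF y τ), fun i _ => hχ i,
    fun i _ p c => ?_, fun i hi j hj hij p => ?_⟩
  · rw [Finset.mul_sum]
    refine Finset.sum_congr rfl fun τ hτ => ?_
    have hτ' := BQ.mem_permTy.mp hτ
    set l := τ.symm i with hl
    have hli : τ l = i := τ.apply_symm_apply i
    have h1 : (fun i' => mul a (update p i (tw E c (p i)) (τ i')) (y i')) =
        update (fun i' => mul a (p (τ i')) (y i')) l (tw E c (mul a (p (τ l)) (y l))) := by
      funext i'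
      by_cases hi' : i' = l
      · rw [hi', update_self, hli, update_self, mul_tw_left]
      · rw [update_of_ne hi', update_of_ne]
        intro h2
        apply hi'
        rw [hl, ← h2, Equiv.symm_apply_apply]
    rw [h1]
    have h2 := h.equi (fun i' => mul a (p (τ i')) (y i')) l c
    have h3 : χ l = χ i := by rw [← hli]; exact (hτ'.2 l).symm
    rw [h3] at h2
    exact h2
  · refine Finset.sum_bij (fun τ _ => Equiv.swap i j * τ) ?_ ?_ ?_ ?_
    · intro τ hτ
      rw [BQ.mem_permTy] at hτ ⊢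
      refine ⟨fun l hl => ?_, fun l => ?_⟩
      · rw [Equiv.Perm.mul_apply, hτ.1 l hl, Equiv.swap_apply_of_ne_of_ne]
        · rintro rfl; exact hl hi
        · rintro rfl; exact hl hj
      · rw [Equiv.Perm.mul_apply, ← hτ.2 l]
        by_cases e1 : τ l = i
        · rw [e1, Equiv.swap_apply_left, hij]
        · by_cases e2 : τ l = j
          · rw [e2, Equiv.swap_apply_right, hij]
          · rw [Equiv.swap_apply_of_ne_of_ne e1 e2]
    · intro τ _ τ' _ e
      exact mul_left_cancel e
    · intro τ hτ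
      refine ⟨Equiv.swap i j * τ, ?_, ?_⟩
      · rw [BQ.mem_permTy] at hτ ⊢
        refine ⟨fun l hl => ?_, fun l => ?_⟩
        · rw [Equiv.Perm.mul_apply, hτ.1 l hl, Equiv.swap_apply_of_ne_of_ne]
          · rintro rfl; exact hl hi
          · rintro rfl; exact hl hj
        · rw [Equiv.Perm.mul_apply, ← hτ.2 l]
          by_cases e1 : τ l = i
          · rw [e1, Equiv.swap_apply_left, hij]
          · by_cases e2 : τ l = j
            · rw [e2, Equiv.swap_apply_right, hij]
            · rw [Equiv.swap_apply_of_ne_of_ne e1 e2]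
      · rw [← mul_assoc, Equiv.swap_mul_self, one_mul]
    · intro τ _
      rfl

open Classical in
/-- Symmetrization over the positions in `B` of a function of points of the second curve. -/
lemma blk_right {hF : ∀ s, (F s).IsHomogeneous (m * a s)} {n : ℕ} {χ : Fin n → ZMod m}
    {Ψ : ((cyc k m a F hF).pow n).Pt → k} (h : EigA E (act E hF) χ Ψ) (hχ : ∀ i, χ i ≠ 0)
    (B : Finset (Fin n)) (y : Fin n → CrvPt k k m (a 0) (F 0)) :
    Blk (hF 1) E B χ (fun p => ∑ τ ∈ BQ.permTy χ B, Ψ (fun i => mul a (y i) (p (τ i)))) := by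
  refine ⟨Kills.sum _ fun τ _ => h.kills.comp (induced_mul_right hF y τ), fun i _ => hχ i,
    fun i _ p c => ?_, fun i hi j hj hij p => ?_⟩
  · rw [Finset.mul_sum]
    refine Finset.sum_congr rfl fun τ hτ => ?_
    have hτ' := BQ.mem_permTy.mp hτ
    set l := τ.symm i with hl
    have hli : τ l = i := τ.apply_symm_apply i
    have h1 : (fun i' => mul a (y i') (update p i (tw E c (p i)) (τ i'))) =
        update (fun i' => mul a (y i') (p (τ i'))) l (tw E c (mul a (y l) (p (τ l)))) := by
      funext i'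
      by_cases hi' : i' = l
      · rw [hi', update_self, hli, update_self, mul_tw_right]
      · rw [update_of_ne hi', update_of_ne]
        intro h2
        apply hi'
        rw [hl, ← h2, Equiv.symm_apply_apply]
    rw [h1]
    have h2 := h.equi (fun i' => mul a (y i') (p (τ i'))) l c
    have h3 : χ l = χ i := by rw [← hli]; exact (hτ'.2 l).symm
    rw [h3] at h2
    exact h2
  · refine Finset.sum_bij (fun τ _ => Equiv.swap i j * τ) ?_ ?_ ?_ ?_
    · intro τ hτ
      rw [BQ.mem_permTy] at hτ ⊢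
      refine ⟨fun l hl => ?_, fun l => ?_⟩
      · rw [Equiv.Perm.mul_apply, hτ.1 l hl, Equiv.swap_apply_of_ne_of_ne]
        · rintro rfl; exact hl hi
        · rintro rfl; exact hl hj
      · rw [Equiv.Perm.mul_apply, ← hτ.2 l]
        by_cases e1 : τ l = i
        · rw [e1, Equiv.swap_apply_left, hij]
        · by_cases e2 : τ l = j
          · rw [e2, Equiv.swap_apply_right, hij]
          · rw [Equiv.swap_apply_of_ne_of_ne e1 e2]
    · intro τ _ τ' _ e
      exact mul_left_cancel e
    · intro τ hτ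
      refine ⟨Equiv.swap i j * τ, ?_, ?_⟩
      · rw [BQ.mem_permTy] at hτ ⊢
        refine ⟨fun l hl => ?_, fun l => ?_⟩
        · rw [Equiv.Perm.mul_apply, hτ.1 l hl, Equiv.swap_apply_of_ne_of_ne]
          · rintro rfl; exact hl hi
          · rintro rfl; exact hl hj
        · rw [Equiv.Perm.mul_apply, ← hτ.2 l]
          by_cases e1 : τ l = i
          · rw [e1, Equiv.swap_apply_left, hij]
          · by_cases e2 : τ l = j
            · rw [e2, Equiv.swap_apply_right, hij]
            · rw [Equiv.swap_apply_of_ne_of_ne e1 e2]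
      · rw [← mul_assoc, Equiv.swap_mul_self, one_mul]
    · intro τ _
      rfl

/-- Eigenfunctions with nontrivial characters vanish. -/
theorem eig_zero (hE : IsFull E) (hm : 2 ≤ m) {s d s' d' : ℕ} (hsd : 0 < s + d)
    (hd : m ∣ d ∨ m.Coprime d) (hsd' : 0 < s' + d') (hd' : m ∣ d' ∨ m.Coprime d')
    (hF : ∀ i, (F i).IsHomogeneous (m * a i)) (ha0 : a 0 = s + up m d) (ha1 : a 1 = s' + up m d')
    (h0 : IsType m s d (F 0)) (h1 : IsType m s' d' (F 1)) {n : ℕ}
    (hn : ∑ j ∈ Finset.Ico 1 m, (s + up m (j * d) - 1) * (s' + up m (j * d') - 1) < n)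
    {χ : Fin n → ZMod m} {Ψ : ((cyc k m a F hF).pow n).Pt → k} (h : EigA E (act E hF) χ Ψ)
    (hχ : ∀ i, χ i ≠ 0) (p : ((cyc k m a F hF).pow n).Pt) : Ψ p = 0 := by
  classical
  by_contra hne
  choose Q R hQR using fun i => mul_surj (p i)
  let _ : Module ℚ k := Algebra.toModule
  obtain ⟨B, B', hcard, ⟨q, hq⟩, ⟨q', hq'⟩⟩ := BQ.rep (X := k) χ
    (fun x : Fin n → CrvPt k k m (a 0) (F 0) × CrvPt k k m (a 1) (F 1) =>
      Ψ (fun i => mul a (x i).1 (x i).2))
    (fun i j hij hχij x => h.alt i j hij hχij (fun l => mul a (x l).1 (x l).2))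
    ⟨fun i => (Q i, R i), by
      intro h2
      apply hne
      rw [← h2]
      congr 1
      funext i
      exact hQR i⟩
  have hS := van' hE hm ha0 hsd (hF 0) h0 (blk_left h hχ B (fun i => (q i).2))
    ⟨fun i => (q i).1, by convert hq⟩
  have hS' := van' hE hm ha1 hsd' (hF 1) h1 (blk_right h hχ B' (fun i => (q' i).1))
    ⟨fun i => (q' i).2, by convert hq'⟩
  have h2 := comb hm hsd hd hsd' hd' hS hS' (by
    beta_reduce
    rw [Finset.card_eq_zero, Finset.filter_eq_empty_iff]
    intro i _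
    exact hχ i)
  have h3 : n ≤ ∑ j : ZMod m, (B.filter (fun i => χ i = j)).card *
      (B'.filter (fun i => χ i = j)).card := by
    calc n = (Finset.univ : Finset (Fin n)).card := by simp
      _ = ∑ j : ZMod m, (Finset.univ.filter (fun i => χ i = j)).card :=
        Finset.card_eq_sum_card_fiberwise (fun _ _ => Finset.mem_univ _)
      _ ≤ _ := Finset.sum_le_sum fun j _ => by
        refine (le_of_eq ?_).trans ((hcard j).trans (le_of_eq ?_)) <;> congr!
  exact absurd (h3.trans h2) (not_le.mpr hn)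

/-- **Main theorem.** -/
theorem main' (hm : 2 ≤ m) {s d s' d' : ℕ} (hsd : 0 < s + d) (hd : m ∣ d ∨ m.Coprime d)
    (hsd' : 0 < s' + d') (hd' : m ∣ d' ∨ m.Coprime d')
    (hF : ∀ i, (F i).IsHomogeneous (m * a i)) (ha0 : a 0 = s + up m d) (ha1 : a 1 = s' + up m d')
    (h0 : IsType m s d (F 0)) (h1 : IsType m s' d' (F 1)) {n : ℕ}
    (hn : ∑ j ∈ Finset.Ico 1 m, (s + up m (j * d) - 1) * (s' + up m (j * d') - 1) < n)
    (z : Fin n → (cyc k m a F hF).Cycles) (hz : ∀ i, (z i).sum (fun _ c => c) = 0) :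
    ∃ N : ℕ, 0 < N ∧ N • ∑ σ : Equiv.Perm (Fin n), ((Equiv.Perm.sign σ : ℤˣ) : ℤ) •
      extProd (fun i => z (σ i)) ∈ ((cyc k m a F hF).pow n).Rat := by
  obtain ⟨E, hE⟩ := exists_full (k := k) m
  refine assembly_deg (act E hF) n z hz fun E' hE' χ₀ Ψ hΨ => ?_
  obtain ⟨χ, hΨ⟩ := hΨ.change hE hE'
  by_cases hχ : ∀ i, χ i ≠ 0
  · exact Or.inl (eig_zero hE hm hsd hd hsd' hd' hF ha0 ha1 h0 h1 hn hΨ hχ)
  · push Not at hχ
    obtain ⟨i, hi⟩ := hχ
    refine Or.inr ⟨i, fun p x y => ?_⟩
    obtain ⟨h2, h3⟩ := hΨ.one (cyc_const (hF := hF)) p i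
    refine const_of_inv hE h2 (fun c P => ?_) x y
    have h4 := h3 c P
    rw [hi, zero_mul, AddChar.map_zero_eq_one, one_mul] at h4
    exact h4

end CY
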