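import Mathlib
import Pool.Agent.Helper93.CY.VanComb

/-!
# The forms belonging to polynomials
-/

set_option linter.unusedSectionVars false

namespace CY

open Function Polynomial

universe u

variable {k : Type u} [Field k]

lemma gform_hom {β : Type} [Fintype β] (α : β → Fin 2 → k) (n : β → ℕ) :
    (gform α n).IsHomogeneous (∑ b, n b) := by
  unfold gform
  apply MvPolynomial.IsHomogeneous.prod
  intro b _
  have h1 : (MvPolynomial.X 0 * MvPolynomial.C (α b 1) - MvPolynomial.X 1 * MvPolynomial.C (α b 0) :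
      MvPolynomial (Fin 2) k).IsHomogeneous 1 := by
    apply MvPolynomial.IsHomogeneous.sub
    · exact (MvPolynomial.isHomogeneous_X k 0).mul (MvPolynomial.isHomogeneous_C (Fin 2) (α b 1))
    · exact (MvPolynomial.isHomogeneous_X k 1).mul (MvPolynomial.isHomogeneous_C (Fin 2) (α b 0))
  have := h1.pow (n b)
  rwa [one_mul] at this

variable [IsAlgClosed k]

/-- The roots of a squarefree polynomial. -/
lemma exists_simple_roots {f : k[X]} (hf : Squarefree f) {N : ℕ} (hN : f.natDegree = N) :
    ∃ c : Fin N → k, Injective c ∧ f = C f.leadingCoeff * ∏ i, (X - C (c i)) := by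
  classical
  have hs : f.Splits := IsAlgClosed.splits f
  have hnd : f.roots.Nodup := nodup_roots (PerfectField.separable_iff_squarefree.mpr hf)
  have hcard : f.roots.toFinset.card = N := by
    rw [Multiset.toFinset_card_of_nodup hnd, ← hN]
    exact splits_iff_card_roots.mp hs
  have e : Fin N ≃ f.roots.toFinset := (Finset.equivFinOfCardEq hcard).symm
  refine ⟨fun i => (e i).1, fun i j h => e.injective (Subtype.ext h), ?_⟩
  rw [Equiv.prod_comp e (fun x => (X - C x.1 : k[X])), Finset.prod_coe_sort f.roots.toFinset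
    (fun x => (X - C x : k[X]))]
  have h1 : ∏ x ∈ f.roots.toFinset, (X - C x : k[X]) = (f.roots.map (fun x => X - C x)).prod := by
    rw [Finset.prod_multiset_map_count]
    apply Finset.prod_congr rfl
    intro x hx
    rw [Multiset.count_eq_one_of_mem hnd (Multiset.mem_toFinset.mp hx), pow_one]
  rw [h1]
  exact (C_leadingCoeff_mul_prod_multiset_X_sub_C (splits_iff_card_roots.mp hs)).symm

/-- The form belonging to `f₁ f₂ ^ (m - 1)` is of type `(s, d)`. -/
theorem isType_homogenize {m : ℕ} (hm : 2 ≤ m) {f₁ f₂ : k[X]} (hf : Squarefree (f₁ * f₂)) {s d : ℕ}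
    (hs : f₂.natDegree = s) (hd : f₁.natDegree = s + d) :
    IsType m s d ((f₁ * f₂ ^ (m - 1)).homogenize (m * (s + up m d))) := by
  classical
  obtain ⟨c₁, hc₁, e₁⟩ := exists_simple_roots hf.of_mul_left hd
  obtain ⟨c₂, hc₂, e₂⟩ := exists_simple_roots hf.of_mul_right hs
  have h1 : f₁ ≠ 0 := fun h => hf.ne_zero (by rw [h, zero_mul])
  have h2 : f₂ ≠ 0 := fun h => hf.ne_zero (by rw [h, mul_zero])
  have hne : ∀ i j, c₁ i ≠ c₂ j := by
    intro i j hij
    have d1 : (X - C (c₁ i)) ∣ f₁ := by
      rw [e₁]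
      exact (Finset.dvd_prod_of_mem (fun i => X - C (c₁ i)) (Finset.mem_univ i)).mul_left _
    have d2 : (X - C (c₁ i)) ∣ f₂ := by
      rw [e₂, hij]
      exact (Finset.dvd_prod_of_mem (fun j => X - C (c₂ j)) (Finset.mem_univ j)).mul_left _
    exact not_isUnit_X_sub_C (c₁ i) (hf _ (mul_dvd_mul d1 d2))
  set α : Br m s d → Fin 2 → k := fun b => match b with
    | Sum.inl (Sum.inl i) => ![c₁ i, 1]
    | Sum.inl (Sum.inr j) => ![c₂ j, 1]
    | Sum.inr _ => ![1, 0] with hα
  refine ⟨f₁.leadingCoeff * f₂.leadingCoeff ^ (m - 1) *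
    (if m ∣ d then 1 else (-1) ^ (m * up m d - d)), α, ?_, ?_, ?_, ?_⟩
  · refine mul_ne_zero (mul_ne_zero (leadingCoeff_ne_zero.mpr h1)
      (pow_ne_zero _ (leadingCoeff_ne_zero.mpr h2))) ?_
    split_ifs
    · exact one_ne_zero
    · exact pow_ne_zero _ (neg_ne_zero.mpr one_ne_zero)
  · rintro ((i | j) | l) h0
    · exact one_ne_zero (congrFun h0 1)
    · exact one_ne_zero (congrFun h0 1)
    · exact one_ne_zero (congrFun h0 0)
  · rintro ((i | j) | l) ((i' | j') | l') hb
    · simp only [hα, Matrix.cons_val_zero, Matrix.cons_val_one, mul_one, one_mul, sub_ne_zero]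
      intro h
      exact hb (by rw [hc₁ h])
    · simp only [hα, Matrix.cons_val_zero, Matrix.cons_val_one, mul_one, one_mul, sub_ne_zero]
      exact hne _ _
    · simp [hα]
    · simp only [hα, Matrix.cons_val_zero, Matrix.cons_val_one, mul_one, one_mul, sub_ne_zero]
      exact (hne _ _).symm
    · simp only [hα, Matrix.cons_val_zero, Matrix.cons_val_one, mul_one, one_mul, sub_ne_zero]
      intro h
      exact hb (by rw [hc₂ h])
    · simp [hα]
    · simp [hα]
    · simp [hα]
    · exfalso
      apply hb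
      congr 1
      have h3 : (if m ∣ d then 0 else 1) ≤ 1 := by split_ifs <;> omega
      apply Fin.ext
      have := l.2
      have := l'.2
      omega
  · apply homogenize_eq_of_isHomogeneous
    · have h3 := (MvPolynomial.isHomogeneous_C (Fin 2) (f₁.leadingCoeff * f₂.leadingCoeff ^ (m - 1) *
        (if m ∣ d then 1 else (-1) ^ (m * up m d - d)))).mul (gform_hom α (mult m s d))
      rwa [sum_mult hm, zero_add] at h3
    · rw [map_mul, MvPolynomial.aeval_C]
      have h3 : MvPolynomial.aeval (![X, 1] : Fin 2 → k[X]) (gform α (mult m s d)) =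
          ∏ b, (X * C (α b 1) - 1 * C (α b 0)) ^ mult m s d b := by
        unfold gform
        simp [map_prod]
      rw [h3, Fintype.prod_sum_type, Fintype.prod_sum_type]
      simp only [hα, mult, Matrix.cons_val_zero, Matrix.cons_val_one, pow_one, map_one, mul_one,
        one_mul, map_zero, mul_zero, zero_sub, Finset.prod_const, Finset.card_univ,
        Fintype.card_fin]
      conv_rhs => rw [e₁, e₂]
      rw [Finset.prod_pow, mul_pow]
      have h4 : (C (f₁.leadingCoeff) : k[X]) = C f₁.leadingCoeff := rfl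
      rw [← C_eq_algebraMap, C_mul, C_mul, C_pow]
      have h5 : (C (if m ∣ d then 1 else (-1) ^ (m * up m d - d) : k) : k[X]) *
          ((-1) ^ (m * up m d - d)) ^ (if m ∣ d then 0 else 1) = 1 := by
        split_ifs
        · simp
        · rw [pow_one, C_pow, C_neg, C_1, ← mul_pow]
          simp
      linear_combination (C f₁.leadingCoeff * C f₂.leadingCoeff ^ (m - 1) *
        (∏ i, (X - C (c₁ i))) * (∏ i, (X - C (c₂ i))) ^ (m - 1)) * h5

end CY
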