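import Mathlib
import Pool.Agent.Helper9.CY.Defs

/-!
# The surfaces `w ^ m = f (x) g (y)`
-/

namespace CY

open VC Polynomial

universe u

lemma homogenize_hom {k : Type u} [Field k] (m : ℕ) (f g : k[X]) (a b : ℕ) (s : Fin 2) :
    ((![f.homogenize (m * a), g.homogenize (m * b)] : Fin 2 → MvPolynomial (Fin 2) k)
      s).IsHomogeneous (m * (![a, b] : Fin 2 → ℕ) s) := by
  fin_cases s
  · exact isHomogeneous_homogenize f
  · exact isHomogeneous_homogenize g

/-- The surface `w ^ m = f (x) g (y)`: the cyclic cover of `P^1 x P^1` given by the homogenizations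
of `f` and `g` to binary forms of degree `m a` and `m b`. -/
noncomputable def surface {k : Type u} [Field k] [IsAlgClosed k] [CharZero k] (m : ℕ) [NeZero m]
    (f g : k[X]) (a b : ℕ) : Variety k :=
  cyc k m ![a, b] ![f.homogenize (m * a), g.homogenize (m * b)] (homogenize_hom m f g a b)

end CY
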