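import Mathlib
import Pool.Agent.Helper9.CY.Final
import Pool.Agent.Helper9.CY.Poly
import Pool.Agent.Helper9.CY.Surface

/-!
# Voisin's conjecture for the surfaces `w ^ m = f (x) g (y)`, in terms of polynomials
-/

set_option linter.unusedSectionVars false

namespace CY

open VC VP VF VH Function Polynomial

universe u

variable {k : Type u} [Field k] [IsAlgClosed k] [CharZero k]

theorem cyclic (m : ℕ) [NeZero m] (hm : 2 ≤ m) (f₁ f₂ g₁ g₂ : k[X]) (hf : Squarefree (f₁ * f₂))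
    (hg : Squarefree (g₁ * g₂)) (hf₀ : 0 < f₁.natDegree) (hg₀ : 0 < g₁.natDegree) (d e : ℕ)
    (hd : f₁.natDegree = f₂.natDegree + d) (he : g₁.natDegree = g₂.natDegree + e)
    (hd' : m ∣ d ∨ m.Coprime d) (he' : m ∣ e ∨ m.Coprime e) (n : ℕ)
    (hn : ∑ j ∈ Finset.Ico 1 m, (f₂.natDegree + (j * d) ⌈/⌉ m - 1) *
      (g₂.natDegree + (j * e) ⌈/⌉ m - 1) < n)
    (z : Fin n → (surface m (f₁ * f₂ ^ (m - 1)) (g₁ * g₂ ^ (m - 1))
      (f₂.natDegree + d ⌈/⌉ m) (g₂.natDegree + e ⌈/⌉ m)).Cycles)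
    (hz : ∀ i, (z i).sum (fun _ c => c) = 0) :
    ∃ N : ℕ, 0 < N ∧ N • ∑ σ : Equiv.Perm (Fin n), ((Equiv.Perm.sign σ : ℤˣ) : ℤ) •
      extProd (fun i => z (σ i)) ∈ ((surface m (f₁ * f₂ ^ (m - 1)) (g₁ * g₂ ^ (m - 1))
        (f₂.natDegree + d ⌈/⌉ m) (g₂.natDegree + e ⌈/⌉ m)).pow n).Rat :=
  main' hm (by omega) hd' (by omega) he' (homogenize_hom m _ _ _ _) rfl rfl (isType_homogenize hm hf rfl hd)
    (isType_homogenize hm hg rfl he) hn z hz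

end CY
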